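import Pool.Agent.H42.LO.Hyp

set_option autoImplicit false

/-!
# Representations of the Borromean rings group
-/

namespace Pool.Agent.H42.LO

open Real

/-- A traceless matrix divided by `P`. -/
noncomputable def vec (P p r s : ℝ) : Mat := !![p / P, r / P; s / P, -(p / P)]

theorem vec_isHyp {P p r s : ℝ} (hP : P ≠ 0) (h : p ^ 2 + r * s = P ^ 2) :
    IsHyp (vec P p r s) := by
  refine ⟨by simp [vec], ?_⟩
  simp only [vec, Matrix.of_apply, Matrix.cons_val', Matrix.cons_val_zero,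
    Matrix.cons_val_one, Matrix.cons_val_fin_one]
  field_simp
  exact h

theorem hexp_vec {P p r s a : ℝ} (hP : P ≠ 0) (ha : sinh a = cosh a * P) :
    hexp (vec P p r s) a = !![cosh a * (1 + p), cosh a * r; cosh a * s, cosh a * (1 - p)] := by
  have h1 : ∀ t : ℝ, sinh a * (t / P) = cosh a * t := by
    intro t
    rw [ha]; field_simp
  apply mat_ext <;> simp [vec, h1] <;> ring

set_option linter.unusedSimpArgs false

section Identities

variable {n m R p q ca cb cw : ℝ}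

/-- The longitude of the first component. -/
theorem long_x (hn : n ≠ 0) (hD : n ^ 2 - m ^ 2 * (1 + R ^ 2) ≠ 0)
    (hcb : cb ^ 2 = n ^ 2 / ((1 + m ^ 2) * (n ^ 2 - m ^ 2 * (1 + R ^ 2))))
    (hcw : cw ^ 2 = 1 / (1 + R ^ 2))
    (hp : p = m * (R + m) / n) (hq : q = - m * (1 - m * R) / n) (k : ℝ)
    (hk : k = 2 * (m * R) / (n ^ 2 - m ^ 2 * (1 + R ^ 2))) :
    (!![cb * (1 + p), cb * (q + m); cb * (q - m), cb * (1 - p)] : Mat) *
      !![cw * (1), cw * (R); cw * (-R), cw * (1)] *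
      !![cb * (1 - p), cb * (-(q + m)); cb * (-(q - m)), cb * (1 + p)] *
      !![cw * (1), cw * (-R); cw * (R), cw * (1)] =
    !![1 + k * (m * R + n), k * m; k * (- m), 1 + k * (m * R - n)] := by
  have h1 : (1 + m ^ 2) ≠ 0 := by positivity
  have h2 : (1 + R ^ 2) ≠ 0 := by positivity
  have key : ∀ t u : ℝ, cb ^ 2 * cw ^ 2 * t = u ↔
      n ^ 2 / ((1 + m ^ 2) * (n ^ 2 - m ^ 2 * (1 + R ^ 2))) * (1 / (1 + R ^ 2)) * t = u := by
    intro t u
    rw [hcb, hcw]
  apply mat_ext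
  · have e : ((!![cb * (1 + p), cb * (q + m); cb * (q - m), cb * (1 - p)] : Mat) *
      !![cw * (1), cw * (R); cw * (-R), cw * (1)] *
      !![cb * (1 - p), cb * (-(q + m)); cb * (-(q - m)), cb * (1 + p)] *
      !![cw * (1), cw * (-R); cw * (R), cw * (1)]) 0 0 =
        cb ^ 2 * cw ^ 2 * ((((1 + p) * (1) + (q + m) * (-R)) * (1 - p) + ((1 + p) * (R) + (q + m) * (1)) * (-(q - m))) * (1) + (((1 + p) * (1) + (q + m) * (-R)) * (-(q + m)) + ((1 + p) * (R) + (q + m) * (1)) * (1 + p)) * (R)) := by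
      simp [Matrix.mul_apply, Fin.sum_univ_two]
      ring
    rw [e, key, hp, hq, hk]
    simp only [Matrix.of_apply, Matrix.cons_val', Matrix.cons_val_zero,
      Matrix.cons_val_one, Matrix.cons_val_fin_one]
    field_simp
    ring
  · have e : ((!![cb * (1 + p), cb * (q + m); cb * (q - m), cb * (1 - p)] : Mat) *
      !![cw * (1), cw * (R); cw * (-R), cw * (1)] *
      !![cb * (1 - p), cb * (-(q + m)); cb * (-(q - m)), cb * (1 + p)] *
      !![cw * (1), cw * (-R); cw * (R), cw * (1)]) 0 1 =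
        cb ^ 2 * cw ^ 2 * ((((1 + p) * (1) + (q + m) * (-R)) * (1 - p) + ((1 + p) * (R) + (q + m) * (1)) * (-(q - m))) * (-R) + (((1 + p) * (1) + (q + m) * (-R)) * (-(q + m)) + ((1 + p) * (R) + (q + m) * (1)) * (1 + p)) * (1)) := by
      simp [Matrix.mul_apply, Fin.sum_univ_two]
      ring
    rw [e, key, hp, hq, hk]
    simp only [Matrix.of_apply, Matrix.cons_val', Matrix.cons_val_zero,
      Matrix.cons_val_one, Matrix.cons_val_fin_one]
    field_simp
    ring
  · have e : ((!![cb * (1 + p), cb * (q + m); cb * (q - m), cb * (1 - p)] : Mat) *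
      !![cw * (1), cw * (R); cw * (-R), cw * (1)] *
      !![cb * (1 - p), cb * (-(q + m)); cb * (-(q - m)), cb * (1 + p)] *
      !![cw * (1), cw * (-R); cw * (R), cw * (1)]) 1 0 =
        cb ^ 2 * cw ^ 2 * ((((q - m) * (1) + (1 - p) * (-R)) * (1 - p) + ((q - m) * (R) + (1 - p) * (1)) * (-(q - m))) * (1) + (((q - m) * (1) + (1 - p) * (-R)) * (-(q + m)) + ((q - m) * (R) + (1 - p) * (1)) * (1 + p)) * (R)) := by
      simp [Matrix.mul_apply, Fin.sum_univ_two]
      ring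
    rw [e, key, hp, hq, hk]
    simp only [Matrix.of_apply, Matrix.cons_val', Matrix.cons_val_zero,
      Matrix.cons_val_one, Matrix.cons_val_fin_one]
    field_simp
    ring
  · have e : ((!![cb * (1 + p), cb * (q + m); cb * (q - m), cb * (1 - p)] : Mat) *
      !![cw * (1), cw * (R); cw * (-R), cw * (1)] *
      !![cb * (1 - p), cb * (-(q + m)); cb * (-(q - m)), cb * (1 + p)] *
      !![cw * (1), cw * (-R); cw * (R), cw * (1)]) 1 1 =
        cb ^ 2 * cw ^ 2 * ((((q - m) * (1) + (1 - p) * (-R)) * (1 - p) + ((q - m) * (R) + (1 - p) * (1)) * (-(q - m))) * (-R) + (((q - m) * (1) + (1 - p) * (-R)) * (-(q + m)) + ((q - m) * (R) + (1 - p) * (1)) * (1 + p)) * (1)) := by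
      simp [Matrix.mul_apply, Fin.sum_univ_two]
      ring
    rw [e, key, hp, hq, hk]
    simp only [Matrix.of_apply, Matrix.cons_val', Matrix.cons_val_zero,
      Matrix.cons_val_one, Matrix.cons_val_fin_one]
    field_simp
    ring

/-- The longitude of the second component. -/
theorem long_y (hn : n ≠ 0) (hm : m ≠ 0) (hE : 1 + m ^ 2 - n ^ 2 ≠ 0)
    (hca : ca ^ 2 = 1 / (1 + m ^ 2 - n ^ 2))
    (hcw : cw ^ 2 = 1 / (1 + R ^ 2))
    (hp : p = m * (R + m) / n) (hq : q = - m * (1 - m * R) / n) (k : ℝ)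
    (hk : k = 2 * R * n ^ 2 / (m * (1 + R ^ 2) * (1 + m ^ 2 - n ^ 2))) :
    (!![cw * (1), cw * (-R); cw * (R), cw * (1)] : Mat) *
      !![ca * (1 - n), ca * (-m); ca * (m), ca * (1 + n)] *
      !![cw * (1), cw * (R); cw * (-R), cw * (1)] *
      !![ca * (1 + n), ca * (m); ca * (-m), ca * (1 - n)] =
    !![1 + k * (m * R + p), k * (q + m); k * (q - m), 1 + k * (m * R - p)] := by
  have h1 : (1 + m ^ 2) ≠ 0 := by positivity
  have h2 : (1 + R ^ 2) ≠ 0 := by positivity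
  have key : ∀ t u : ℝ, ca ^ 2 * cw ^ 2 * t = u ↔
      1 / (1 + m ^ 2 - n ^ 2) * (1 / (1 + R ^ 2)) * t = u := by
    intro t u
    rw [hca, hcw]
  apply mat_ext
  · have e : ((!![cw * (1), cw * (-R); cw * (R), cw * (1)] : Mat) *
      !![ca * (1 - n), ca * (-m); ca * (m), ca * (1 + n)] *
      !![cw * (1), cw * (R); cw * (-R), cw * (1)] *
      !![ca * (1 + n), ca * (m); ca * (-m), ca * (1 - n)]) 0 0 =
        ca ^ 2 * cw ^ 2 * ((((1) * (1 - n) + (-R) * (m)) * (1) + ((1) * (-m) + (-R) * (1 + n)) * (-R)) * (1 + n) + (((1) * (1 - n) + (-R) * (m)) * (R) + ((1) * (-m) + (-R) * (1 + n)) * (1)) * (-m)) := by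
      simp [Matrix.mul_apply, Fin.sum_univ_two]
      ring
    rw [e, key, hp, hq, hk]
    simp only [Matrix.of_apply, Matrix.cons_val', Matrix.cons_val_zero,
      Matrix.cons_val_one, Matrix.cons_val_fin_one]
    field_simp
    ring
  · have e : ((!![cw * (1), cw * (-R); cw * (R), cw * (1)] : Mat) *
      !![ca * (1 - n), ca * (-m); ca * (m), ca * (1 + n)] *
      !![cw * (1), cw * (R); cw * (-R), cw * (1)] *
      !![ca * (1 + n), ca * (m); ca * (-m), ca * (1 - n)]) 0 1 =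
        ca ^ 2 * cw ^ 2 * ((((1) * (1 - n) + (-R) * (m)) * (1) + ((1) * (-m) + (-R) * (1 + n)) * (-R)) * (m) + (((1) * (1 - n) + (-R) * (m)) * (R) + ((1) * (-m) + (-R) * (1 + n)) * (1)) * (1 - n)) := by
      simp [Matrix.mul_apply, Fin.sum_univ_two]
      ring
    rw [e, key, hp, hq, hk]
    simp only [Matrix.of_apply, Matrix.cons_val', Matrix.cons_val_zero,
      Matrix.cons_val_one, Matrix.cons_val_fin_one]
    field_simp
    ring
  · have e : ((!![cw * (1), cw * (-R); cw * (R), cw * (1)] : Mat) *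
      !![ca * (1 - n), ca * (-m); ca * (m), ca * (1 + n)] *
      !![cw * (1), cw * (R); cw * (-R), cw * (1)] *
      !![ca * (1 + n), ca * (m); ca * (-m), ca * (1 - n)]) 1 0 =
        ca ^ 2 * cw ^ 2 * ((((R) * (1 - n) + (1) * (m)) * (1) + ((R) * (-m) + (1) * (1 + n)) * (-R)) * (1 + n) + (((R) * (1 - n) + (1) * (m)) * (R) + ((R) * (-m) + (1) * (1 + n)) * (1)) * (-m)) := by
      simp [Matrix.mul_apply, Fin.sum_univ_two]
      ring
    rw [e, key, hp, hq, hk]
    simp only [Matrix.of_apply, Matrix.cons_val', Matrix.cons_val_zero,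
      Matrix.cons_val_one, Matrix.cons_val_fin_one]
    field_simp
    ring
  · have e : ((!![cw * (1), cw * (-R); cw * (R), cw * (1)] : Mat) *
      !![ca * (1 - n), ca * (-m); ca * (m), ca * (1 + n)] *
      !![cw * (1), cw * (R); cw * (-R), cw * (1)] *
      !![ca * (1 + n), ca * (m); ca * (-m), ca * (1 - n)]) 1 1 =
        ca ^ 2 * cw ^ 2 * ((((R) * (1 - n) + (1) * (m)) * (1) + ((R) * (-m) + (1) * (1 + n)) * (-R)) * (m) + (((R) * (1 - n) + (1) * (m)) * (R) + ((R) * (-m) + (1) * (1 + n)) * (1)) * (1 - n)) := by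
      simp [Matrix.mul_apply, Fin.sum_univ_two]
      ring
    rw [e, key, hp, hq, hk]
    simp only [Matrix.of_apply, Matrix.cons_val', Matrix.cons_val_zero,
      Matrix.cons_val_one, Matrix.cons_val_fin_one]
    field_simp
    ring

/-- The longitude of the third component. -/
theorem long_z (hn : n ≠ 0) (hD : n ^ 2 - m ^ 2 * (1 + R ^ 2) ≠ 0)
    (hE : 1 + m ^ 2 - n ^ 2 ≠ 0)
    (hca : ca ^ 2 = 1 / (1 + m ^ 2 - n ^ 2))
    (hcb : cb ^ 2 = n ^ 2 / ((1 + m ^ 2) * (n ^ 2 - m ^ 2 * (1 + R ^ 2))))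
    (hp : p = m * (R + m) / n) (hq : q = - m * (1 - m * R) / n) :
    (!![ca * (1 + n), ca * (m); ca * (-m), ca * (1 - n)] : Mat) *
      !![cb * (1 - p), cb * (-(q + m)); cb * (-(q - m)), cb * (1 + p)] *
      !![ca * (1 - n), ca * (-m); ca * (m), ca * (1 + n)] *
      !![cb * (1 + p), cb * (q + m); cb * (q - m), cb * (1 - p)] =
    !![1 - 2 * m ^ 2 / (1 + m ^ 2), 2 * m / (1 + m ^ 2);
      - (2 * m / (1 + m ^ 2)), 1 - 2 * m ^ 2 / (1 + m ^ 2)] := by
  have h1 : (1 + m ^ 2) ≠ 0 := by positivity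
  have h2 : (1 + R ^ 2) ≠ 0 := by positivity
  have key : ∀ t u : ℝ, ca ^ 2 * cb ^ 2 * t = u ↔
      1 / (1 + m ^ 2 - n ^ 2) * (n ^ 2 / ((1 + m ^ 2) * (n ^ 2 - m ^ 2 * (1 + R ^ 2)))) * t = u := by
    intro t u
    rw [hca, hcb]
  apply mat_ext
  · have e : ((!![ca * (1 + n), ca * (m); ca * (-m), ca * (1 - n)] : Mat) *
      !![cb * (1 - p), cb * (-(q + m)); cb * (-(q - m)), cb * (1 + p)] *
      !![ca * (1 - n), ca * (-m); ca * (m), ca * (1 + n)] *
      !![cb * (1 + p), cb * (q + m); cb * (q - m), cb * (1 - p)]) 0 0 =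
        ca ^ 2 * cb ^ 2 * ((((1 + n) * (1 - p) + (m) * (-(q - m))) * (1 - n) + ((1 + n) * (-(q + m)) + (m) * (1 + p)) * (m)) * (1 + p) + (((1 + n) * (1 - p) + (m) * (-(q - m))) * (-m) + ((1 + n) * (-(q + m)) + (m) * (1 + p)) * (1 + n)) * (q - m)) := by
      simp [Matrix.mul_apply, Fin.sum_univ_two]
      ring
    rw [e, key, hp, hq]
    simp only [Matrix.of_apply, Matrix.cons_val', Matrix.cons_val_zero,
      Matrix.cons_val_one, Matrix.cons_val_fin_one]
    field_simp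
    ring
  · have e : ((!![ca * (1 + n), ca * (m); ca * (-m), ca * (1 - n)] : Mat) *
      !![cb * (1 - p), cb * (-(q + m)); cb * (-(q - m)), cb * (1 + p)] *
      !![ca * (1 - n), ca * (-m); ca * (m), ca * (1 + n)] *
      !![cb * (1 + p), cb * (q + m); cb * (q - m), cb * (1 - p)]) 0 1 =
        ca ^ 2 * cb ^ 2 * ((((1 + n) * (1 - p) + (m) * (-(q - m))) * (1 - n) + ((1 + n) * (-(q + m)) + (m) * (1 + p)) * (m)) * (q + m) + (((1 + n) * (1 - p) + (m) * (-(q - m))) * (-m) + ((1 + n) * (-(q + m)) + (m) * (1 + p)) * (1 + n)) * (1 - p)) := by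
      simp [Matrix.mul_apply, Fin.sum_univ_two]
      ring
    rw [e, key, hp, hq]
    simp only [Matrix.of_apply, Matrix.cons_val', Matrix.cons_val_zero,
      Matrix.cons_val_one, Matrix.cons_val_fin_one]
    field_simp
    ring
  · have e : ((!![ca * (1 + n), ca * (m); ca * (-m), ca * (1 - n)] : Mat) *
      !![cb * (1 - p), cb * (-(q + m)); cb * (-(q - m)), cb * (1 + p)] *
      !![ca * (1 - n), ca * (-m); ca * (m), ca * (1 + n)] *
      !![cb * (1 + p), cb * (q + m); cb * (q - m), cb * (1 - p)]) 1 0 =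
        ca ^ 2 * cb ^ 2 * ((((-m) * (1 - p) + (1 - n) * (-(q - m))) * (1 - n) + ((-m) * (-(q + m)) + (1 - n) * (1 + p)) * (m)) * (1 + p) + (((-m) * (1 - p) + (1 - n) * (-(q - m))) * (-m) + ((-m) * (-(q + m)) + (1 - n) * (1 + p)) * (1 + n)) * (q - m)) := by
      simp [Matrix.mul_apply, Fin.sum_univ_two]
      ring
    rw [e, key, hp, hq]
    simp only [Matrix.of_apply, Matrix.cons_val', Matrix.cons_val_zero,
      Matrix.cons_val_one, Matrix.cons_val_fin_one]
    field_simp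
    ring
  · have e : ((!![ca * (1 + n), ca * (m); ca * (-m), ca * (1 - n)] : Mat) *
      !![cb * (1 - p), cb * (-(q + m)); cb * (-(q - m)), cb * (1 + p)] *
      !![ca * (1 - n), ca * (-m); ca * (m), ca * (1 + n)] *
      !![cb * (1 + p), cb * (q + m); cb * (q - m), cb * (1 - p)]) 1 1 =
        ca ^ 2 * cb ^ 2 * ((((-m) * (1 - p) + (1 - n) * (-(q - m))) * (1 - n) + ((-m) * (-(q + m)) + (1 - n) * (1 + p)) * (m)) * (q + m) + (((-m) * (1 - p) + (1 - n) * (-(q - m))) * (-m) + ((-m) * (-(q + m)) + (1 - n) * (1 + p)) * (1 + n)) * (1 - p)) := by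
      simp [Matrix.mul_apply, Fin.sum_univ_two]
      ring
    rw [e, key, hp, hq]
    simp only [Matrix.of_apply, Matrix.cons_val', Matrix.cons_val_zero,
      Matrix.cons_val_one, Matrix.cons_val_fin_one]
    field_simp
    ring

end Identities

theorem hexp_long {P p r s A S ε k : ℝ} (hε : ε = 1 ∨ ε = -1) (hP : P ≠ 0) (hS : S ≠ 0)
    (hPS : P ^ 2 - S ^ 2 ≠ 0) (hA : sinh A * P = cosh A * S)
    (hk : k = 2 * (ε * S) / (P ^ 2 - S ^ 2)) :
    hexp (vec P p r s) (2 * (ε * A)) =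
      !![1 + k * (ε * S + p), k * r; k * s, 1 + k * (ε * S - p)] := by
  have hc := Real.cosh_sq A
  have e1 : sinh A ^ 2 * (P ^ 2 - S ^ 2) = S ^ 2 := by
    linear_combination (sinh A * P + cosh A * S) * hA + S ^ 2 * hc
  have hε2 : ε ^ 2 = 1 := by rcases hε with h | h <;> rw [h] <;> norm_num
  have e2 : cosh (2 * (ε * A)) = 1 + k * (ε * S) := by
    have : cosh (2 * (ε * A)) = 1 + 2 * sinh A ^ 2 := by
      rcases hε with h | h
      · rw [h, one_mul, Real.cosh_two_mul, hc]; ring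
      · rw [h, neg_one_mul, mul_neg, Real.cosh_neg, Real.cosh_two_mul, hc]; ring
    rw [this, hk]
    field_simp
    linear_combination 2 * e1 - 2 * S ^ 2 * hε2
  have e3 : sinh (2 * (ε * A)) = k * P := by
    have : sinh (2 * (ε * A)) = 2 * ε * (sinh A * cosh A) := by
      rcases hε with h | h
      · rw [h, one_mul, Real.sinh_two_mul]; ring
      · rw [h, neg_one_mul, mul_neg, Real.sinh_neg, Real.sinh_two_mul]; ring
    rw [this, hk]
    field_simp
    apply mul_right_cancel₀ hS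
    linear_combination (- ε * sinh A * (P ^ 2 - S ^ 2)) * hA + ε * P * e1
  apply mat_ext
  · simp [vec, e2, e3]; field_simp; ring
  · simp [vec, e3]; field_simp
  · simp [vec, e3]; field_simp
  · simp [vec, e2, e3]; field_simp; ring

theorem isLift_comm {M N : Mat} {f g : ℝ ≃o ℝ} (hf : IsLift M f) (hg : IsLift N g)
    (hM : M 0 0 * M 1 1 - M 0 1 * M 1 0 = 1) (hN : N 0 0 * N 1 1 - N 0 1 * N 1 0 = 1) :
    IsLift (M * adj N * adj M * N) (f * g⁻¹ * f⁻¹ * g) :=
  ((hf.mul (hg.inv (adj_mul hN))).mul (hf.inv (adj_mul hM))).mul hg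

theorem rep {P Q R S a b w A B C ε : ℝ} (hε : ε = 1 ∨ ε = -1)
    (hP : 0 < P) (hQ : 0 < Q) (hR : 0 < R) (hS : 0 < S)
    (hSP : S < P) (hSQ : S < Q) (hP1 : P < 1)
    (ha : sinh a = cosh a * P) (hb : sinh b = cosh b * Q) (hw : sin w = cos w * R)
    (hA : sinh A * P = cosh A * S) (hB : sinh B * Q = cosh B * S)
    (hC : sin C * R = cos C * S) (hC0 : 0 < C) (hC1 : C < π / 2)
    (hK : (P ^ 2 + (S / R) ^ 2) * (Q ^ 2 + (S / R) ^ 2) =
      (S / R) ^ 2 * (1 + (S / R) ^ 2) * (1 + R ^ 2)) :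
    ∃ (U V : Mat) (hU : IsHyp U) (hV : IsHyp V),
      hl V hV b * (sh w)⁻¹ * (hl V hV b)⁻¹ * sh w = hl U hU (2 * (ε * A)) ∧
      sh w * (hl U hU a)⁻¹ * (sh w)⁻¹ * hl U hU a = hl V hV (2 * (ε * B)) ∧
      hl U hU a * (hl V hV b)⁻¹ * (hl U hU a)⁻¹ * hl V hV b = sh (-(2 * (ε * C))) := by
  have hε2 : ε ^ 2 = 1 := by rcases hε with h | h <;> rw [h] <;> norm_num
  have hε0 : ε ≠ 0 := by rcases hε with h | h <;> rw [h] <;> norm_num
  obtain ⟨m, hm⟩ : ∃ m : ℝ, m = ε * (S / R) := ⟨_, rfl⟩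
  have hm2 : m ^ 2 = (S / R) ^ 2 := by rw [hm, mul_pow, hε2, one_mul]
  have hmR : m * R = ε * S := by rw [hm]; field_simp
  have hmR2 : m ^ 2 * R ^ 2 = S ^ 2 := by
    have : m ^ 2 * R ^ 2 = (m * R) ^ 2 := by ring
    rw [this, hmR, mul_pow, hε2, one_mul]
  have hm0 : m ≠ 0 := by
    rw [hm]; exact mul_ne_zero hε0 (div_ne_zero hS.ne' hR.ne')
  rw [← hm2] at hK
  obtain ⟨n, hn⟩ : ∃ n : ℝ, n = Real.sqrt (P ^ 2 + m ^ 2) := ⟨_, rfl⟩
  have hn2 : n ^ 2 = P ^ 2 + m ^ 2 := by rw [hn]; exact Real.sq_sqrt (by positivity)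
  have hnpos : 0 < n := by rw [hn]; exact Real.sqrt_pos.2 (by positivity)
  have hn0 : n ≠ 0 := hnpos.ne'
  have hm1 : (1 + m ^ 2) ≠ 0 := by positivity
  have hR1 : (1 + R ^ 2) ≠ 0 := by positivity
  have hPS : 0 < P ^ 2 - S ^ 2 := by nlinarith
  have hQS : 0 < Q ^ 2 - S ^ 2 := by nlinarith
  have hD : n ^ 2 - m ^ 2 * (1 + R ^ 2) = P ^ 2 - S ^ 2 := by
    rw [hn2]; linear_combination (-1 : ℝ) * hmR2
  have hD0 : n ^ 2 - m ^ 2 * (1 + R ^ 2) ≠ 0 := by rw [hD]; exact hPS.ne'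
  have hE : 1 + m ^ 2 - n ^ 2 = 1 - P ^ 2 := by rw [hn2]; ring
  have hE0 : 1 + m ^ 2 - n ^ 2 ≠ 0 := by
    rw [hE]; nlinarith
  obtain ⟨p, hp⟩ : ∃ p : ℝ, p = m * (R + m) / n := ⟨_, rfl⟩
  obtain ⟨q, hq⟩ : ∃ q : ℝ, q = - m * (1 - m * R) / n := ⟨_, rfl⟩
  have hpq : (p ^ 2 + q ^ 2) * n ^ 2 = m ^ 2 * (1 + m ^ 2) * (1 + R ^ 2) := by
    rw [hp, hq]; field_simp; ring
  have hQ2 : p ^ 2 + (q + m) * (q - m) = Q ^ 2 := by
    have h1 : (p ^ 2 + q ^ 2 - (Q ^ 2 + m ^ 2)) * n ^ 2 = 0 := by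
      rw [sub_mul, hpq, ← hK, hn2]; ring
    have h2 : p ^ 2 + q ^ 2 - (Q ^ 2 + m ^ 2) = 0 := by
      rcases mul_eq_zero.1 h1 with h | h
      · exact h
      · exact absurd h (pow_ne_zero 2 hn0)
    linarith
  have hU : IsHyp (vec P n m (-m)) := vec_isHyp hP.ne' (by rw [hn2]; ring)
  have hV : IsHyp (vec Q p (q + m) (q - m)) := vec_isHyp hQ.ne' hQ2
  have hca : cosh a ^ 2 = 1 / (1 + m ^ 2 - n ^ 2) := by
    rw [eq_div_iff hE0, hE]
    linear_combination (1 : ℝ) * Real.cosh_sq a + (sinh a + cosh a * P) * ha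
  have hcb : cosh b ^ 2 = n ^ 2 / ((1 + m ^ 2) * (n ^ 2 - m ^ 2 * (1 + R ^ 2))) := by
    have h1 : cosh b ^ 2 * (1 - Q ^ 2) = 1 := by
      linear_combination (1 : ℝ) * Real.cosh_sq b + (sinh b + cosh b * Q) * hb
    have h2 : (1 + m ^ 2) * (n ^ 2 - m ^ 2 * (1 + R ^ 2)) = n ^ 2 * (1 - Q ^ 2) := by
      rw [hn2]; linear_combination hK
    rw [eq_div_iff (mul_ne_zero hm1 hD0), h2]
    linear_combination n ^ 2 * h1
  have hcw : cos w ^ 2 = 1 / (1 + R ^ 2) := by
    rw [eq_div_iff hR1]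
    linear_combination Real.sin_sq_add_cos_sq w - (sin w + cos w * R) * hw
  have hXe := hexp_vec (p := n) (r := m) (s := -m) hP.ne' ha
  have hYe := hexp_vec (p := p) (r := q + m) (s := q - m) hQ.ne' hb
  have hZe : rot w = !![cos w, - (cos w * R); cos w * R, cos w] := by
    rw [← hw]; rfl
  have hXa : adj (hexp (vec P n m (-m)) a) =
      !![cosh a * (1 - n), cosh a * (-m); cosh a * m, cosh a * (1 + n)] := by
    rw [hXe]
    apply mat_ext <;> simp [adj]
  have hYa : adj (hexp (vec Q p (q + m) (q - m)) b) =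
      !![cosh b * (1 - p), cosh b * (-(q + m)); cosh b * (-(q - m)), cosh b * (1 + p)] := by
    rw [hYe]
    apply mat_ext <;> simp [adj] <;> ring
  have hZa : adj (rot w) = !![cos w * 1, cos w * R; cos w * (-R), cos w * 1] := by
    rw [hZe]
    apply mat_ext <;> simp [adj]
  have hZe' : rot w = !![cos w * 1, cos w * (-R); cos w * R, cos w * 1] := by
    rw [hZe]
    apply mat_ext <;> simp
  refine ⟨_, _, hU, hV, ?_, ?_, ?_⟩
  · apply eq_hl hU
    · have h1 := isLift_comm (hl_isLift hV b) (sh_isLift w) (hexp_det hV b) (rot_det w)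
      rw [hYa, hYe, hZa, hZe', long_x hn0 hD0 hcb hcw hp hq _ rfl] at h1
      rw [hexp_long (k := 2 * (m * R) / (n ^ 2 - m ^ 2 * (1 + R ^ 2))) hε hP.ne' hS.ne'
        hPS.ne' hA (by rw [hD, hmR])]
      rwa [hmR] at h1 ⊢
    · intro t
      have h1 : (hl (vec Q p (q + m) (q - m)) hV b * (sh w)⁻¹ *
          (hl (vec Q p (q + m) (q - m)) hV b)⁻¹ * sh w) t =
          hl (vec Q p (q + m) (q - m)) hV b
            (hl (vec Q p (q + m) (q - m)) hV (-b) (t + w) + -w) := by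
        rw [← hl_neg, ← sh_neg]; rfl
      rw [h1]
      have h2 := hl_sub hV b (hl (vec Q p (q + m) (q - m)) hV (-b) (t + w) + -w)
      have h3 := hl_sub hV (-b) (t + w)
      rw [abs_lt] at h2 h3 ⊢
      constructor <;> linarith [h2.1, h2.2, h3.1, h3.2]
  · apply eq_hl hV
    · have h1 := isLift_comm (sh_isLift w) (hl_isLift hU a) (rot_det w) (hexp_det hU a)
      rw [hXa, hXe, hZa, hZe', long_y hn0 hm0 hE0 hca hcw hp hq _ rfl] at h1
      have hk : 2 * R * n ^ 2 / (m * (1 + R ^ 2) * (1 + m ^ 2 - n ^ 2)) =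
          2 * (ε * S) / (Q ^ 2 - S ^ 2) := by
        rw [← hmR, div_eq_div_iff (mul_ne_zero (mul_ne_zero hm0 hR1) hE0) hQS.ne', hn2,
          ← hmR2]
        linear_combination 2 * R * hK
      rw [hexp_long (k := 2 * R * n ^ 2 / (m * (1 + R ^ 2) * (1 + m ^ 2 - n ^ 2))) hε hQ.ne'
        hS.ne' hQS.ne' hB hk]
      rwa [hmR] at h1
    · intro t
      have h1 : (sh w * (hl (vec P n m (-m)) hU a)⁻¹ * (sh w)⁻¹ *
          hl (vec P n m (-m)) hU a) t =
          hl (vec P n m (-m)) hU (-a) (hl (vec P n m (-m)) hU a t + -w) + w := by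
        rw [← hl_neg, ← sh_neg]; rfl
      rw [h1]
      have h2 := hl_sub hU (-a) (hl (vec P n m (-m)) hU a t + -w)
      have h3 := hl_sub hU a t
      rw [abs_lt] at h2 h3 ⊢
      constructor <;> linarith [h2.1, h2.2, h3.1, h3.2]
  · obtain ⟨s, hs⟩ := hl_fix hU
    have h0 : hl (vec Q p (q + m) (q - m)) hV b (hl (vec Q p (q + m) (q - m)) hV (-b) s) = s := by
      show (hl (vec Q p (q + m) (q - m)) hV b * hl (vec Q p (q + m) (q - m)) hV (-b)) s = s
      rw [← hl_add, add_neg_cancel, hl_zero]; rfl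
    refine eq_sh (t₀ := hl (vec Q p (q + m) (q - m)) hV (-b) s) ?_ ?_
    · have h1 := isLift_comm (hl_isLift hU a) (hl_isLift hV b) (hexp_det hU a) (hexp_det hV b)
      rw [hXa, hXe, hYa, hYe, long_z hn0 hD0 hE0 hca hcb hp hq] at h1
      have hcc := Real.sin_sq_add_cos_sq C
      have hS2 : sin C ^ 2 * R ^ 2 = cos C ^ 2 * S ^ 2 := by
        rw [← mul_pow, ← mul_pow, hC]
      have hs1 : sin C ^ 2 = m ^ 2 / (1 + m ^ 2) := by
        rw [eq_div_iff hm1]
        have h2 : sin C ^ 2 * R ^ 2 = cos C ^ 2 * (m ^ 2 * R ^ 2) := by rw [hmR2, hS2]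
        have h3 : sin C ^ 2 = cos C ^ 2 * m ^ 2 := by
          apply mul_right_cancel₀ (pow_ne_zero 2 hR.ne')
          rw [h2]; ring
        linear_combination h3 + m ^ 2 * hcc
      have hsc : sin C * cos C = ε * m / (1 + m ^ 2) := by
        have hc0 : 0 < cos C := Real.cos_pos_of_mem_Ioo ⟨by linarith, hC1⟩
        have h3 : sin C = cos C * (ε * m) := by
          apply mul_right_cancel₀ hR.ne'
          rw [hC, hm]
          field_simp
          rw [hε2]
        have h4 : cos C ^ 2 * (1 + m ^ 2) = 1 := by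
          linear_combination hcc - (sin C + cos C * (ε * m)) * h3 - cos C ^ 2 * m ^ 2 * hε2
        rw [eq_div_iff hm1, h3]
        linear_combination ε * m * h4
      have h5 : cos (2 * C) = 1 - 2 * m ^ 2 / (1 + m ^ 2) := by
        rw [Real.cos_two_mul, Real.cos_sq', hs1]; ring
      have h6 : ε * sin (2 * C) = 2 * m / (1 + m ^ 2) := by
        rw [Real.sin_two_mul, mul_assoc, hsc]
        have : ε * (2 * (ε * m / (1 + m ^ 2))) = ε ^ 2 * (2 * m / (1 + m ^ 2)) := by ring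
        rw [this, hε2, one_mul]
      have h7 : cos (-(2 * (ε * C))) = cos (2 * C) := by
        rcases hε with h | h
        · rw [h, Real.cos_neg, one_mul]
        · rw [h]; congr 1; ring
      have h8 : sin (-(2 * (ε * C))) = - (ε * sin (2 * C)) := by
        rcases hε with h | h
        · rw [h, Real.sin_neg, one_mul, one_mul]
        · rw [h]
          have : -(2 * (-1 * C)) = 2 * C := by ring
          rw [this]; ring
      have h9 : rot (-(2 * (ε * C))) = !![1 - 2 * m ^ 2 / (1 + m ^ 2), 2 * m / (1 + m ^ 2);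
          - (2 * m / (1 + m ^ 2)), 1 - 2 * m ^ 2 / (1 + m ^ 2)] := by
        apply mat_ext
        · rw [rot_00, h7, h5]; simp
        · rw [rot_01, h8, h6]; simp
        · rw [rot_10, h8, h6]; simp
        · rw [rot_11, h7, h5]; simp
      rw [h9]
      exact h1
    · have h1 : (hl (vec P n m (-m)) hU a * (hl (vec Q p (q + m) (q - m)) hV b)⁻¹ *
          (hl (vec P n m (-m)) hU a)⁻¹ * hl (vec Q p (q + m) (q - m)) hV b)
          (hl (vec Q p (q + m) (q - m)) hV (-b) s) =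
          hl (vec P n m (-m)) hU a (hl (vec Q p (q + m) (q - m)) hV (-b) s) := by
        rw [← hl_neg, ← hl_neg]
        show hl (vec P n m (-m)) hU a (hl (vec Q p (q + m) (q - m)) hV (-b)
          (hl (vec P n m (-m)) hU (-a) (hl (vec Q p (q + m) (q - m)) hV b
            (hl (vec Q p (q + m) (q - m)) hV (-b) s)))) = _
        rw [h0, hs]
      rw [h1]
      have h2 := hl_sub hU a (hl (vec Q p (q + m) (q - m)) hV (-b) s)
      have h3 : |2 * (ε * C)| < π := by
        rcases hε with h | h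
        · rw [h, abs_lt]; constructor <;> linarith
        · rw [h, abs_lt]; constructor <;> linarith
      rw [abs_lt] at h2 h3 ⊢
      constructor <;> linarith [h2.1, h2.2, h3.1, h3.2]

end Pool.Agent.H42.LO
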