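import Pool.Agent.H42.LO.BorrRep

set_option autoImplicit false

/-!
# Solving the slope equations
-/

namespace Pool.Agent.H42.LO

open Real Set Filter Topology

theorem tanh_lt_tanh' {x y : ℝ} (h : x < y) : tanh x < tanh y := by
  by_contra hcon
  push Not at hcon
  have h1 := (Real.artanh_le_artanh_iff (Real.tanh_bijOn.mapsTo (mem_univ y))
    (Real.tanh_bijOn.mapsTo (mem_univ x))).2 hcon
  rw [Real.artanh_tanh, Real.artanh_tanh] at h1
  linarith

theorem tanh_pos' {x : ℝ} (h : 0 < x) : 0 < tanh x := by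
  have := tanh_lt_tanh' h
  rwa [Real.tanh_zero] at this

theorem tanh_lt_one' (x : ℝ) : tanh x < 1 := (Real.tanh_bijOn.mapsTo (mem_univ x)).2

theorem continuous_tanh' : Continuous tanh := by
  have : tanh = fun x => sinh x / cosh x := by
    funext x; exact Real.tanh_eq_sinh_div_cosh x
  rw [this]
  exact Real.continuous_sinh.div Real.continuous_cosh (fun x => (Real.cosh_pos x).ne')

/-- The function `tanh a * tanh (α a)`. -/
noncomputable def T (α a : ℝ) : ℝ := tanh a * tanh (α * a)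

theorem T_cont (α : ℝ) : Continuous (T α) :=
  continuous_tanh'.mul (continuous_tanh'.comp (continuous_const.mul continuous_id))

theorem T_lt {α : ℝ} (hα : 0 < α) {a b : ℝ} (ha : 0 < a) (hab : a < b) : T α a < T α b := by
  have h1 := tanh_lt_tanh' hab
  have h2 := tanh_lt_tanh' (mul_lt_mul_of_pos_left hab hα)
  have h3 := tanh_pos' ha
  have h4 := tanh_pos' (mul_pos hα ha)
  exact mul_lt_mul h1 h2.le h4 (h3.trans h1).le

theorem T_pos {α : ℝ} (hα : 0 < α) {a : ℝ} (ha : 0 < a) : 0 < T α a :=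
  mul_pos (tanh_pos' ha) (tanh_pos' (mul_pos hα ha))

theorem T_lt_one {α : ℝ} (hα : 0 < α) {a : ℝ} (ha : 0 < a) : T α a < 1 := by
  have h1 := tanh_lt_one' a
  have h2 := tanh_lt_one' (α * a)
  have h3 := tanh_pos' ha
  have h4 := tanh_pos' (mul_pos hα ha)
  show tanh a * tanh (α * a) < 1
  nlinarith

theorem T_surj {α : ℝ} (hα : 0 < α) {S : ℝ} (hS : S ∈ Ioo (0 : ℝ) 1) :
    ∃ a : ℝ, 0 < a ∧ T α a = S := by
  obtain ⟨s, hs⟩ : ∃ s : ℝ, s = Real.sqrt S := ⟨_, rfl⟩
  have hs0 : 0 < s := by rw [hs]; exact Real.sqrt_pos.2 hS.1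
  have hs1 : s < 1 := by
    rw [hs, Real.sqrt_lt' one_pos]; simpa using hS.2
  have hss : s * s = S := by rw [hs]; exact Real.mul_self_sqrt hS.1.le
  obtain ⟨d, hd⟩ : ∃ d : ℝ, tanh d = s :=
    ⟨Real.artanh s, Real.tanh_artanh ⟨by linarith, hs1⟩⟩
  have hd0 : 0 < d := by
    by_contra hcon
    push Not at hcon
    rcases eq_or_lt_of_le hcon with h | h
    · rw [h, Real.tanh_zero] at hd; linarith
    · have := tanh_lt_tanh' h
      rw [Real.tanh_zero] at this; linarith
  obtain ⟨M, hM⟩ : ∃ M : ℝ, M = max d (d / α) + 1 := ⟨_, rfl⟩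
  have hM1 : d < M := by rw [hM]; linarith [le_max_left d (d / α)]
  have hM2 : d < α * M := by
    have : d / α < M := by rw [hM]; linarith [le_max_right d (d / α)]
    rw [div_lt_iff₀ hα] at this
    linarith
  have h1 := tanh_lt_tanh' hM1
  have h2 := tanh_lt_tanh' hM2
  rw [hd] at h1 h2
  have h3 : S < T α M := by
    rw [← hss]
    exact mul_lt_mul h1 h2.le hs0 (hs0.trans h1).le
  have h4 : T α 0 = 0 := by simp [T]
  have hM0 : 0 ≤ M := (hd0.trans hM1).le
  have h5 : S ∈ T α '' Icc 0 M := by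
    apply intermediate_value_Icc hM0 (T_cont α).continuousOn
    rw [h4]
    exact ⟨hS.1.le, h3.le⟩
  obtain ⟨a, ha, haS⟩ := h5
  refine ⟨a, ?_, haS⟩
  rcases eq_or_lt_of_le ha.1 with h | h
  · rw [← h, h4] at haS; linarith [hS.1]
  · exact h

theorem exists_inverse {α : ℝ} (hα : 0 < α) : ∃ A : ℝ → ℝ, ContinuousOn A (Ioo 0 1) ∧
    (∀ S ∈ Ioo (0 : ℝ) 1, 0 < A S ∧ T α (A S) = S) ∧
    (∀ a : ℝ, 0 < a → ∀ S ∈ Ioo (0 : ℝ) 1, (S < T α a → A S < a) ∧ (T α a < S → a < A S)) := by
  classical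
  obtain ⟨A, hA⟩ : ∃ A : ℝ → ℝ, ∀ S ∈ Ioo (0 : ℝ) 1, 0 < A S ∧ T α (A S) = S :=
    ⟨fun S => if h : S ∈ Ioo (0 : ℝ) 1 then (T_surj hα h).choose else 0, fun S hS => by
      simp only [dif_pos hS]; exact (T_surj hα hS).choose_spec⟩
  have hcmp : ∀ a : ℝ, 0 < a → ∀ S ∈ Ioo (0 : ℝ) 1,
      (S < T α a → A S < a) ∧ (T α a < S → a < A S) := by
    intro a ha S hS
    obtain ⟨h1, h2⟩ := hA S hS
    constructor
    · intro h
      by_contra hcon
      push Not at hcon
      rcases eq_or_lt_of_le hcon with h3 | h3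
      · rw [h3, h2] at h; exact lt_irrefl _ h
      · have := T_lt hα ha h3
        rw [h2] at this; linarith
    · intro h
      by_contra hcon
      push Not at hcon
      rcases eq_or_lt_of_le hcon with h3 | h3
      · rw [← h3, h2] at h; exact lt_irrefl _ h
      · have := T_lt hα h1 h3
        rw [h2] at this; linarith
  refine ⟨A, ?_, hA, hcmp⟩
  have hmono : MonotoneOn A (Ioo 0 1) := by
    intro S hS S' hS' hSS
    by_contra hcon
    push Not at hcon
    have := T_lt hα (hA S' hS').1 hcon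
    rw [(hA S hS).2, (hA S' hS').2] at this
    linarith
  have himg : A '' (Ioo 0 1) = Ioi 0 := by
    ext a
    constructor
    · rintro ⟨S, hS, rfl⟩
      exact (hA S hS).1
    · intro ha
      have ha' : 0 < a := ha
      have hS : T α a ∈ Ioo (0 : ℝ) 1 := ⟨T_pos hα ha', T_lt_one hα ha'⟩
      refine ⟨T α a, hS, ?_⟩
      obtain ⟨h1, h2⟩ := hA _ hS
      rcases lt_trichotomy (A (T α a)) a with h | h | h
      · have := T_lt hα h1 h; rw [h2] at this; exact absurd this (lt_irrefl _)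
      · exact h
      · have := T_lt hα ha' h; rw [h2] at this; exact absurd this (lt_irrefl _)
  intro S hS
  apply ContinuousAt.continuousWithinAt
  apply continuousAt_of_monotoneOn_of_image_mem_nhds hmono (Ioo_mem_nhds hS.1 hS.2)
  rw [himg]
  exact Ioi_mem_nhds (hA S hS).1

/-- The estimate near the trivial representation. -/
theorem small_ratio {α : ℝ} (hα : 0 < α) {a : ℝ} (ha : 0 < a) (ha1 : a < 1) :
    α * sinh (2 * a) ≤ cosh 2 * sinh (2 * (α * a)) := by
  have h1 : 2 * (α * a) ≤ sinh (2 * (α * a)) := by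
    exact Real.self_le_sinh_iff.2 (by positivity)
  have h2 : sinh (2 * a) ≤ 2 * a * cosh 2 := by
    have key : ∀ x : ℝ, 0 ≤ x → sinh x ≤ x * cosh x := by
      intro x hx
      have hd : ∀ y : ℝ, HasDerivAt (fun y => y * cosh y - sinh y) (y * sinh y) y := by
        intro y
        have h3 := ((hasDerivAt_id y).mul (Real.hasDerivAt_cosh y)).sub (Real.hasDerivAt_sinh y)
        refine h3.congr_deriv ?_
        simp only [id]
        ring
      have hm : MonotoneOn (fun y => y * cosh y - sinh y) (Ici 0) := by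
        apply monotoneOn_of_deriv_nonneg (convex_Ici 0)
        · exact (continuous_iff_continuousAt.2 fun y => (hd y).continuousAt).continuousOn
        · exact fun y _ => (hd y).differentiableAt.differentiableWithinAt
        · intro y hy
          rw [interior_Ici] at hy
          rw [(hd y).deriv]
          exact mul_nonneg (le_of_lt hy) (Real.sinh_nonneg_iff.2 (le_of_lt hy))
      have := hm (mem_Ici.2 le_rfl) (mem_Ici.2 hx) hx
      simp at this
      linarith
    have h4 := key (2 * a) (by linarith)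
    have h5 : cosh (2 * a) ≤ cosh 2 := by
      rw [Real.cosh_le_cosh, abs_of_pos (by linarith : (0 : ℝ) < 2 * a), abs_of_pos two_pos]
      linarith
    nlinarith
  have h6 := Real.cosh_pos 2
  calc α * sinh (2 * a) ≤ α * (2 * a * cosh 2) := mul_le_mul_of_nonneg_left h2 hα.le
    _ = cosh 2 * (2 * (α * a)) := by ring
    _ ≤ cosh 2 * sinh (2 * (α * a)) := mul_le_mul_of_nonneg_left h1 h6.le

theorem sinh_ge {x : ℝ} (hx : 1 ≤ x) : exp x / 4 ≤ sinh x := by
  rw [Real.sinh_eq]
  have h1 : exp (-x) ≤ 1 := by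
    rw [← Real.exp_zero]; exact Real.exp_le_exp.2 (by linarith)
  have h2 : 2 ≤ exp x := by
    have := Real.add_one_le_exp x; linarith
  linarith

theorem sinh_le (x : ℝ) : sinh x ≤ exp x / 2 := by
  rw [Real.sinh_eq]
  have := Real.exp_pos (-x)
  linarith

theorem cosh_le {x : ℝ} (hx : 0 ≤ x) : cosh x ≤ exp x := by
  rw [Real.cosh_eq]
  have h1 : exp (-x) ≤ exp x := Real.exp_le_exp.2 (by linarith)
  linarith

theorem cosh_ge (x : ℝ) : exp x / 2 ≤ cosh x := by
  rw [Real.cosh_eq]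
  have := Real.exp_pos (-x)
  linarith

theorem one_sub_T (α a : ℝ) :
    (1 - T α a) * (cosh a * cosh (α * a)) = cosh (a - α * a) := by
  have h1 := (Real.cosh_pos a).ne'
  have h2 := (Real.cosh_pos (α * a)).ne'
  rw [T, Real.tanh_eq_sinh_div_cosh, Real.tanh_eq_sinh_div_cosh, Real.cosh_sub]
  field_simp

theorem large_aux {α β : ℝ} (hα : 0 < α) (hβ : 0 < β) (hα1 : α < 1) (hαβ : α * β < 1) :
    ∃ M : ℝ, 1 ≤ M ∧ ∀ a b : ℝ, M ≤ a → 1 ≤ b → T α a = T β b →
      3 * (sinh (2 * (α * a)) * sinh (2 * (β * b))) < sinh (2 * a) * sinh (2 * b) := by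
  obtain ⟨M₁, hM₁⟩ : ∃ M : ℝ, M = 12 / (2 * (1 - α)) := ⟨_, rfl⟩
  obtain ⟨M₂, hM₂⟩ : ∃ M : ℝ, M = (12 + 8 * (β - 1)) / (2 * (1 - α * β)) := ⟨_, rfl⟩
  refine ⟨max 1 (max M₁ M₂), le_max_left _ _, fun a b ha hb hT => ?_⟩
  have ha1 : 1 ≤ a := (le_max_left _ _).trans ha
  have ha2 : M₁ ≤ a := ((le_max_left _ _).trans (le_max_right _ _)).trans ha
  have ha3 : M₂ ≤ a := ((le_max_right _ _).trans (le_max_right _ _)).trans ha
  have hαa : 0 < α * a := mul_pos hα (by linarith)
  have hβb : 0 < β * b := mul_pos hβ (by linarith)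
  -- the exponent
  have hexp : 12 ≤ 2 * a - 2 * (α * a) + (2 * b - 2 * (β * b)) := by
    rcases le_or_gt β 1 with hβ1 | hβ1
    · have h1 : 12 ≤ 2 * (1 - α) * a := by
        rw [hM₁, div_le_iff₀ (by linarith)] at ha2
        linarith
      have h2 : 0 ≤ (1 - β) * b := mul_nonneg (by linarith) (by linarith)
      nlinarith
    · have hba : b ≤ α * a + 4 := by
        by_contra hcon
        push Not at hcon
        have e1 := one_sub_T α a
        have e2 := one_sub_T β b
        rw [← hT] at e2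
        have hpos : 0 < 1 - T α a := by
          have := T_lt_one hα (by linarith : (0 : ℝ) < a); linarith
        have f1 : exp (a - α * a) / 2 ≤ (1 - T α a) * (exp a * exp (α * a)) := by
          calc exp (a - α * a) / 2 ≤ cosh (a - α * a) := cosh_ge _
            _ = (1 - T α a) * (cosh a * cosh (α * a)) := e1.symm
            _ ≤ (1 - T α a) * (exp a * exp (α * a)) := by
                apply mul_le_mul_of_nonneg_left _ hpos.le
                exact mul_le_mul (cosh_le (by linarith)) (cosh_le hαa.le)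
                  (Real.cosh_pos _).le (Real.exp_pos _).le
        have f2 : (1 - T α a) * (exp b / 2 * (exp (β * b) / 2)) ≤ exp (β * b - b) := by
          calc (1 - T α a) * (exp b / 2 * (exp (β * b) / 2))
              ≤ (1 - T α a) * (cosh b * cosh (β * b)) := by
                apply mul_le_mul_of_nonneg_left _ hpos.le
                exact mul_le_mul (cosh_ge _) (cosh_ge _) (by positivity) (Real.cosh_pos _).le
            _ = cosh (b - β * b) := e2
            _ = cosh (β * b - b) := by rw [← Real.cosh_neg]; congr 1; ring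
            _ ≤ exp (β * b - b) := cosh_le (by nlinarith)
        have g1 : 1 / 2 ≤ (1 - T α a) * exp (2 * (α * a)) := by
          have h1 : exp (a - α * a) * exp (2 * (α * a)) = exp a * exp (α * a) := by
            rw [← Real.exp_add, ← Real.exp_add]; congr 1; ring
          have h2 := Real.exp_pos (a - α * a)
          rw [← h1] at f1
          have h3 : exp (a - α * a) * (1 / 2) ≤
              exp (a - α * a) * ((1 - T α a) * exp (2 * (α * a))) := by linarith
          exact le_of_mul_le_mul_left h3 h2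
        have g2 : (1 - T α a) * exp (2 * b) ≤ 4 := by
          have h1 : exp (β * b - b) * exp (2 * b) = exp b * exp (β * b) := by
            rw [← Real.exp_add, ← Real.exp_add]; congr 1; ring
          have h2 := Real.exp_pos (β * b - b)
          have h3 : exp (β * b - b) * ((1 - T α a) * exp (2 * b)) ≤
              exp (β * b - b) * 4 := by
            have : exp (β * b - b) * ((1 - T α a) * exp (2 * b)) =
              4 * ((1 - T α a) * (exp b / 2 * (exp (β * b) / 2))) := by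
              rw [show exp (β * b - b) * ((1 - T α a) * exp (2 * b)) =
                (1 - T α a) * (exp (β * b - b) * exp (2 * b)) by ring, h1]
              ring
            linarith
          exact le_of_mul_le_mul_left h3 h2
        have g3 : exp (2 * (α * a)) * 9 ≤ exp (2 * b) := by
          have h1 : (9 : ℝ) ≤ exp 8 := by
            have := Real.add_one_le_exp (8 : ℝ); linarith
          have h2 : exp (2 * (α * a)) * exp 8 ≤ exp (2 * b) := by
            rw [← Real.exp_add]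
            exact Real.exp_le_exp.2 (by linarith)
          have h3 := Real.exp_pos (2 * (α * a))
          nlinarith
        have g4 : (1 - T α a) * (exp (2 * (α * a)) * 9) ≤ (1 - T α a) * exp (2 * b) :=
          mul_le_mul_of_nonneg_left g3 hpos.le
        nlinarith
      have h1 : 12 + 8 * (β - 1) ≤ 2 * (1 - α * β) * a := by
        rw [hM₂, div_le_iff₀ (by linarith)] at ha3
        linarith
      have h2 : (β - 1) * b ≤ (β - 1) * (α * a + 4) :=
        mul_le_mul_of_nonneg_left hba (by linarith)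
      nlinarith
  have s1 := sinh_ge (x := 2 * a) (by linarith)
  have s2 := sinh_ge (x := 2 * b) (by linarith)
  have s3 := sinh_le (2 * (α * a))
  have s4 := sinh_le (2 * (β * b))
  have s5 : 0 < sinh (2 * (α * a)) := Real.sinh_pos_iff.2 (by linarith)
  have s6 : 0 < sinh (2 * (β * b)) := Real.sinh_pos_iff.2 (by linarith)
  have s7 : sinh (2 * (α * a)) * sinh (2 * (β * b)) ≤
      exp (2 * (α * a)) / 2 * (exp (2 * (β * b)) / 2) :=
    mul_le_mul s3 s4 s6.le (by positivity)
  have s8 : exp (2 * a) / 4 * (exp (2 * b) / 4) ≤ sinh (2 * a) * sinh (2 * b) :=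
    mul_le_mul s1 s2 (by positivity) (le_trans (by positivity) s1)
  have s9 : 13 * (exp (2 * (α * a)) * exp (2 * (β * b))) ≤ exp (2 * a) * exp (2 * b) := by
    have h1 : (13 : ℝ) ≤ exp (2 * a - 2 * (α * a) + (2 * b - 2 * (β * b))) := by
      have := Real.add_one_le_exp (2 * a - 2 * (α * a) + (2 * b - 2 * (β * b))); linarith
    have h2 : exp (2 * a - 2 * (α * a) + (2 * b - 2 * (β * b))) *
        (exp (2 * (α * a)) * exp (2 * (β * b))) = exp (2 * a) * exp (2 * b) := by
      rw [← Real.exp_add, ← Real.exp_add, ← Real.exp_add]; congr 1; ring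
    rw [← h2]
    exact mul_le_mul_of_nonneg_right h1 (by positivity)
  have s10 : 0 < exp (2 * (α * a)) * exp (2 * (β * b)) := by positivity
  linarith

theorem large {α β : ℝ} (hα : 0 < α) (hβ : 0 < β) (hαβ : α * β < 1) :
    ∃ M : ℝ, 1 ≤ M ∧ ∀ a b : ℝ, M ≤ a → M ≤ b → T α a = T β b →
      3 * (sinh (2 * (α * a)) * sinh (2 * (β * b))) < sinh (2 * a) * sinh (2 * b) := by
  by_cases h : α < 1
  · obtain ⟨M, hM, h1⟩ := large_aux hα hβ h hαβ
    exact ⟨M, hM, fun a b ha hb => h1 a b ha (hM.trans hb)⟩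
  · have h' : β < 1 := by
      push Not at h
      nlinarith
    obtain ⟨M, hM, h1⟩ := large_aux hβ hα h' (by linarith)
    refine ⟨M, hM, fun a b ha hb hT => ?_⟩
    have := h1 b a hb (hM.trans ha) hT.symm
    linarith

theorem exists_sol {α β : ℝ} (hα : 0 < α) (hβ : 0 < β) (hαβ : α * β < 1) {c : ℝ → ℝ} {w₁ : ℝ}
    (hw0 : 0 < w₁) (hw1 : w₁ < π / 2) (hc : Continuous c) (hc0 : 0 ≤ c 0)
    (hcpos : ∀ w, 0 < w → w ≤ w₁ → 0 < c w) (hsum : ∀ w, 0 ≤ w → w < w₁ → w + c w < π / 2)
    (hsum1 : w₁ + c w₁ = π / 2) :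
    ∃ a b w : ℝ, 0 < a ∧ 0 < b ∧ 0 < w ∧ w < w₁ ∧ 0 < tan w * tan (c w) ∧
      tan w * tan (c w) < 1 ∧ T α a = tan w * tan (c w) ∧ T β b = tan w * tan (c w) ∧
      sinh (2 * a) * sinh (2 * b) * sin w ^ 2 =
        sinh (2 * (α * a)) * sinh (2 * (β * b)) * cos (c w) ^ 2 := by
  obtain ⟨A, hAc, hA, hA'⟩ := exists_inverse hα
  obtain ⟨B, hBc, hB, hB'⟩ := exists_inverse hβ
  obtain ⟨M, hM, hlarge⟩ := large hα hβ hαβ
  set S : ℝ → ℝ := fun w => tan w * tan (c w) with hSdef
  have hS : ∀ w, 0 < w → w < w₁ → S w ∈ Ioo (0 : ℝ) 1 := by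
    intro w h0 h1
    have hc1 := hcpos w h0 h1.le
    have hc2 := hsum w h0.le h1
    have t1 : 0 < tan w := Real.tan_pos_of_pos_of_lt_pi_div_two h0 (by linarith)
    have t2 : 0 < tan (c w) := Real.tan_pos_of_pos_of_lt_pi_div_two hc1 (by linarith)
    refine ⟨mul_pos t1 t2, ?_⟩
    have t3 : tan (c w) < tan (π / 2 - w) :=
      Real.tan_lt_tan_of_nonneg_of_lt_pi_div_two hc1.le (by linarith) (by linarith)
    rw [Real.tan_pi_div_two_sub] at t3
    calc tan w * tan (c w) < tan w * (tan w)⁻¹ := mul_lt_mul_of_pos_left t3 t1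
      _ = 1 := mul_inv_cancel₀ t1.ne'
  have hScont : ∀ w, 0 ≤ w → w ≤ w₁ → ContinuousAt S w := by
    intro w h0 h1
    have h2 : c w < π / 2 := by
      rcases eq_or_lt_of_le h1 with h | h
      · rw [h]; linarith
      · have := hsum w h0 h; linarith
    have h3 : 0 ≤ c w := by
      rcases eq_or_lt_of_le h0 with h | h
      · rw [← h]; exact hc0
      · exact (hcpos w h h1).le
    have hw : cos w ≠ 0 := (Real.cos_pos_of_mem_Ioo ⟨by linarith [Real.pi_pos], by linarith⟩).ne'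
    have hcw : cos (c w) ≠ 0 :=
      (Real.cos_pos_of_mem_Ioo ⟨by linarith [Real.pi_pos], h2⟩).ne'
    exact (Real.continuousAt_tan.2 hw).mul
      (ContinuousAt.comp (g := tan) (Real.continuousAt_tan.2 hcw) hc.continuousAt)
  -- a point near zero
  obtain ⟨w₀, hw₀, h1, h2, h3⟩ : ∃ w₀, w₀ ∈ Ioo 0 w₁ ∧ S w₀ < T α 1 ∧ S w₀ < T β 1 ∧
      cosh 2 ^ 2 * sin w₀ ^ 2 < α * β * cos (c w₀) ^ 2 := by
    have hcont := hScont 0 le_rfl hw0.le
    have hS0 : S 0 = 0 := by simp [hSdef]
    have e1 : ∀ᶠ w in 𝓝 (0 : ℝ), S w < T α 1 := by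
      apply hcont.eventually_lt continuousAt_const
      rw [hS0]; exact T_pos hα one_pos
    have e2 : ∀ᶠ w in 𝓝 (0 : ℝ), S w < T β 1 := by
      apply hcont.eventually_lt continuousAt_const
      rw [hS0]; exact T_pos hβ one_pos
    have e3 : ∀ᶠ w in 𝓝 (0 : ℝ), cosh 2 ^ 2 * sin w ^ 2 < α * β * cos (c w) ^ 2 := by
      have c1 : Continuous fun w : ℝ => cosh 2 ^ 2 * sin w ^ 2 := by fun_prop
      have c2 : Continuous fun w : ℝ => α * β * cos (c w) ^ 2 := by fun_prop
      apply c1.continuousAt.eventually_lt c2.continuousAt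
      have h4 := hsum 0 le_rfl hw0
      have h5 : 0 < cos (c 0) := Real.cos_pos_of_mem_Ioo ⟨by linarith [Real.pi_pos], by linarith⟩
      simp only [Real.sin_zero]
      have := mul_pos (mul_pos hα hβ) (pow_pos h5 2)
      linarith
    have e4 : ∀ᶠ w in 𝓝[>] (0 : ℝ), w ∈ Ioo 0 w₁ := Ioo_mem_nhdsGT hw0
    obtain ⟨w, ⟨⟨h6, h7⟩, h8⟩, h9⟩ := ((((e1.filter_mono nhdsWithin_le_nhds).and
      (e2.filter_mono nhdsWithin_le_nhds)).and (e3.filter_mono nhdsWithin_le_nhds)).and e4).exists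
    exact ⟨w, h9, h6, h7, h8⟩
  -- a point near the other end
  obtain ⟨w₂, hw₂, h4, h5, h6⟩ : ∃ w₂, w₂ ∈ Ioo w₀ w₁ ∧ T α M < S w₂ ∧ T β M < S w₂ ∧
      cos (c w₂) ^ 2 < 3 * sin w₂ ^ 2 := by
    have hcont := hScont w₁ hw0.le le_rfl
    have hc1 : c w₁ = π / 2 - w₁ := by linarith
    have t1 : 0 < tan w₁ := Real.tan_pos_of_pos_of_lt_pi_div_two hw0 hw1
    have hS1 : S w₁ = 1 := by
      simp only [hSdef]
      rw [hc1, Real.tan_pi_div_two_sub, mul_inv_cancel₀ t1.ne']
    have hM0 : 0 < M := by linarith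
    have e1 : ∀ᶠ w in 𝓝 w₁, T α M < S w := by
      apply continuousAt_const.eventually_lt hcont
      rw [hS1]; exact T_lt_one hα hM0
    have e2 : ∀ᶠ w in 𝓝 w₁, T β M < S w := by
      apply continuousAt_const.eventually_lt hcont
      rw [hS1]; exact T_lt_one hβ hM0
    have e3 : ∀ᶠ w in 𝓝 w₁, cos (c w) ^ 2 < 3 * sin w ^ 2 := by
      have c1 : Continuous fun w : ℝ => cos (c w) ^ 2 := by fun_prop
      have c2 : Continuous fun w : ℝ => 3 * sin w ^ 2 := by fun_prop
      apply c1.continuousAt.eventually_lt c2.continuousAt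
      have h5 : 0 < sin w₁ := Real.sin_pos_of_pos_of_lt_pi hw0 (by linarith [Real.pi_pos])
      simp only [hc1, Real.cos_pi_div_two_sub]
      nlinarith [pow_pos h5 2]
    have e4 : ∀ᶠ w in 𝓝[<] w₁, w ∈ Ioo w₀ w₁ := Ioo_mem_nhdsLT hw₀.2
    obtain ⟨w, ⟨⟨h6, h7⟩, h8⟩, h9⟩ := ((((e1.filter_mono nhdsWithin_le_nhds).and
      (e2.filter_mono nhdsWithin_le_nhds)).and (e3.filter_mono nhdsWithin_le_nhds)).and e4).exists
    exact ⟨w, h9, h6, h7, h8⟩
  set h : ℝ → ℝ := fun w => sinh (2 * A (S w)) * sinh (2 * B (S w)) * sin w ^ 2 -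
    sinh (2 * (α * A (S w))) * sinh (2 * (β * B (S w))) * cos (c w) ^ 2 with hh
  have hcont : ContinuousOn h (Icc w₀ w₂) := by
    have hmaps : ∀ w ∈ Icc w₀ w₂, S w ∈ Ioo (0 : ℝ) 1 := fun w hw =>
      hS w (hw₀.1.trans_le hw.1) (hw.2.trans_lt hw₂.2)
    have hSc : ContinuousOn S (Icc w₀ w₂) := fun w hw =>
      (hScont w (hw₀.1.le.trans hw.1) (hw.2.trans hw₂.2.le)).continuousWithinAt
    have hAS : ContinuousOn (fun w => A (S w)) (Icc w₀ w₂) := hAc.comp hSc hmaps
    have hBS : ContinuousOn (fun w => B (S w)) (Icc w₀ w₂) := hBc.comp hSc hmaps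
    have k1 : ContinuousOn (fun w => sinh (2 * A (S w))) (Icc w₀ w₂) :=
      Real.continuous_sinh.comp_continuousOn (continuousOn_const.mul hAS)
    have k2 : ContinuousOn (fun w => sinh (2 * B (S w))) (Icc w₀ w₂) :=
      Real.continuous_sinh.comp_continuousOn (continuousOn_const.mul hBS)
    have k3 : ContinuousOn (fun w => sinh (2 * (α * A (S w)))) (Icc w₀ w₂) :=
      Real.continuous_sinh.comp_continuousOn (continuousOn_const.mul (continuousOn_const.mul hAS))
    have k4 : ContinuousOn (fun w => sinh (2 * (β * B (S w)))) (Icc w₀ w₂) :=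
      Real.continuous_sinh.comp_continuousOn (continuousOn_const.mul (continuousOn_const.mul hBS))
    have k5 : ContinuousOn (fun w : ℝ => sin w ^ 2) (Icc w₀ w₂) := by fun_prop
    have k6 : ContinuousOn (fun w : ℝ => cos (c w) ^ 2) (Icc w₀ w₂) := by fun_prop
    exact ((k1.mul k2).mul k5).sub ((k3.mul k4).mul k6)
  have hneg : h w₀ < 0 := by
    have hSw := hS w₀ hw₀.1 hw₀.2
    obtain ⟨a0, -⟩ := hA _ hSw
    obtain ⟨b0, -⟩ := hB _ hSw
    have a1 := (hA' 1 one_pos _ hSw).1 h1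
    have b1 := (hB' 1 one_pos _ hSw).1 h2
    have r1 := small_ratio hα a0 a1
    have r2 := small_ratio hβ b0 b1
    have p1 : 0 < sinh (2 * A (S w₀)) := Real.sinh_pos_iff.2 (by linarith)
    have p2 : 0 < sinh (2 * B (S w₀)) := Real.sinh_pos_iff.2 (by linarith)
    have p3 : 0 < sinh (2 * (α * A (S w₀))) :=
      Real.sinh_pos_iff.2 (mul_pos two_pos (mul_pos hα a0))
    have p4 : 0 < sinh (2 * (β * B (S w₀))) :=
      Real.sinh_pos_iff.2 (mul_pos two_pos (mul_pos hβ b0))
    have q1 := mul_le_mul r1 r2 (mul_pos hβ p2).le (mul_pos (Real.cosh_pos 2) p3).le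
    have q2 : α * β * (sinh (2 * A (S w₀)) * sinh (2 * B (S w₀)) * sin w₀ ^ 2) <
        α * β * (sinh (2 * (α * A (S w₀))) * sinh (2 * (β * B (S w₀))) * cos (c w₀) ^ 2) := by
      calc α * β * (sinh (2 * A (S w₀)) * sinh (2 * B (S w₀)) * sin w₀ ^ 2)
          = (α * sinh (2 * A (S w₀)) * (β * sinh (2 * B (S w₀)))) * sin w₀ ^ 2 := by ring
        _ ≤ (cosh 2 * sinh (2 * (α * A (S w₀))) * (cosh 2 * sinh (2 * (β * B (S w₀))))) *
            sin w₀ ^ 2 := mul_le_mul_of_nonneg_right q1 (sq_nonneg _)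
        _ = (sinh (2 * (α * A (S w₀))) * sinh (2 * (β * B (S w₀)))) *
            (cosh 2 ^ 2 * sin w₀ ^ 2) := by ring
        _ < (sinh (2 * (α * A (S w₀))) * sinh (2 * (β * B (S w₀)))) *
            (α * β * cos (c w₀) ^ 2) := mul_lt_mul_of_pos_left h3 (mul_pos p3 p4)
        _ = _ := by ring
    have := lt_of_mul_lt_mul_left q2 (mul_pos hα hβ).le
    simp only [hh]
    linarith
  have hpos : 0 < h w₂ := by
    have hSw := hS w₂ (hw₀.1.trans hw₂.1) hw₂.2
    obtain ⟨a0, ta⟩ := hA _ hSw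
    obtain ⟨b0, tb⟩ := hB _ hSw
    have hM0 : 0 < M := by linarith
    have a1 := (hA' M hM0 _ hSw).2 h4
    have b1 := (hB' M hM0 _ hSw).2 h5
    have key := hlarge _ _ a1.le b1.le (by rw [ta, tb])
    have p3 : 0 < sinh (2 * (α * A (S w₂))) :=
      Real.sinh_pos_iff.2 (mul_pos two_pos (mul_pos hα a0))
    have p4 : 0 < sinh (2 * (β * B (S w₂))) :=
      Real.sinh_pos_iff.2 (mul_pos two_pos (mul_pos hβ b0))
    have s0 : 0 < sin w₂ ^ 2 := by
      have : 0 < sin w₂ := Real.sin_pos_of_pos_of_lt_pi (hw₀.1.trans hw₂.1)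
        (by linarith [Real.pi_pos, hw₂.2])
      positivity
    have q1 : 3 * (sinh (2 * (α * A (S w₂))) * sinh (2 * (β * B (S w₂)))) * sin w₂ ^ 2 <
        sinh (2 * A (S w₂)) * sinh (2 * B (S w₂)) * sin w₂ ^ 2 :=
      mul_lt_mul_of_pos_right key s0
    have q2 : (sinh (2 * (α * A (S w₂))) * sinh (2 * (β * B (S w₂)))) * cos (c w₂) ^ 2 <
        (sinh (2 * (α * A (S w₂))) * sinh (2 * (β * B (S w₂)))) * (3 * sin w₂ ^ 2) :=
      mul_lt_mul_of_pos_left h6 (mul_pos p3 p4)
    simp only [hh]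
    linarith
  have hmem : (0 : ℝ) ∈ h '' Icc w₀ w₂ :=
    intermediate_value_Icc hw₂.1.le hcont ⟨hneg.le, hpos.le⟩
  obtain ⟨w, hw, hw'⟩ := hmem
  have hwpos : 0 < w := hw₀.1.trans_le hw.1
  have hwlt : w < w₁ := hw.2.trans_lt hw₂.2
  have hSw := hS w hwpos hwlt
  refine ⟨A (S w), B (S w), w, (hA _ hSw).1, (hB _ hSw).1, hwpos, hwlt, hSw.1, hSw.2,
    (hA _ hSw).2, (hB _ hSw).2, ?_⟩
  simp only [hh] at hw'
  linarith

end Pool.Agent.H42.LO
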