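import Pool.Agent.H42.LO.Lift

set_option autoImplicit false

/-!
# One-parameter groups of lifts
-/

namespace Pool.Agent.H42.LO

open Real

/-- A traceless matrix with square one. -/
structure IsHyp (U : Mat) : Prop where
  tr : U 1 1 = - U 0 0
  sq : U 0 0 ^ 2 + U 0 1 * U 1 0 = 1

/-- `exp (τ U)` for a traceless matrix `U` with square one. -/
noncomputable def hexp (U : Mat) (τ : ℝ) : Mat :=
  !![cosh τ + sinh τ * U 0 0, sinh τ * U 0 1; sinh τ * U 1 0, cosh τ - sinh τ * U 0 0]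

@[simp] theorem hexp_00 (U : Mat) (τ : ℝ) : hexp U τ 0 0 = cosh τ + sinh τ * U 0 0 := by
  simp [hexp]
@[simp] theorem hexp_01 (U : Mat) (τ : ℝ) : hexp U τ 0 1 = sinh τ * U 0 1 := by
  simp [hexp]
@[simp] theorem hexp_10 (U : Mat) (τ : ℝ) : hexp U τ 1 0 = sinh τ * U 1 0 := by
  simp [hexp]
@[simp] theorem hexp_11 (U : Mat) (τ : ℝ) : hexp U τ 1 1 = cosh τ - sinh τ * U 0 0 := by
  simp [hexp]

theorem mat_ext {M N : Mat} (h00 : M 0 0 = N 0 0) (h01 : M 0 1 = N 0 1) (h10 : M 1 0 = N 1 0)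
    (h11 : M 1 1 = N 1 1) : M = N := by
  ext i j
  fin_cases i <;> fin_cases j <;> assumption

theorem hexp_add {U : Mat} (h : IsHyp U) (s t : ℝ) : hexp U (s + t) = hexp U s * hexp U t := by
  have hs := h.sq
  apply mat_ext <;>
    simp only [Matrix.mul_apply, Fin.sum_univ_two, hexp_00, hexp_01, hexp_10, hexp_11,
      Real.cosh_add, Real.sinh_add]
  · linear_combination (- sinh s * sinh t) * hs
  · ring
  · ring
  · linear_combination (- sinh s * sinh t) * hs

theorem hexp_zero (U : Mat) : hexp U 0 = 1 := by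
  apply mat_ext <;> simp

theorem hexp_det {U : Mat} (h : IsHyp U) (τ : ℝ) :
    hexp U τ 0 0 * hexp U τ 1 1 - hexp U τ 0 1 * hexp U τ 1 0 = 1 := by
  have h1 := Real.cosh_sq τ
  simp only [hexp_00, hexp_01, hexp_10, hexp_11]
  linear_combination h1 - (sinh τ ^ 2) * h.sq

theorem hexp_tr (U : Mat) (τ : ℝ) : -2 < hexp U τ 0 0 + hexp U τ 1 1 := by
  simp only [hexp_00, hexp_11]
  linarith [Real.cosh_pos τ]

/-- The one-parameter group of lifts. -/
noncomputable def hl (U : Mat) (h : IsHyp U) (τ : ℝ) : ℝ ≃o ℝ :=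
  can (hexp U τ) (hexp_det h τ) (hexp_tr U τ)

theorem hl_isLift {U : Mat} (h : IsHyp U) (τ : ℝ) : IsLift (hexp U τ) (hl U h τ) :=
  can_isLift _ _ _

theorem hl_sub {U : Mat} (h : IsHyp U) (τ t : ℝ) : |hl U h τ t - t| < π := can_sub _ _ _ _

theorem exists_dir {x y : ℝ} (h : x ≠ 0 ∨ y ≠ 0) :
    ∃ t r : ℝ, 0 < r ∧ x = r * cos t ∧ y = r * sin t := by
  have hne : (⟨x, y⟩ : ℂ) ≠ 0 := by
    intro h0
    have h1 := congrArg Complex.re h0
    have h2 := congrArg Complex.im h0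
    simp at h1 h2
    rcases h with h | h
    · exact h h1
    · exact h h2
  have h1 := Complex.norm_mul_cos_arg (⟨x, y⟩ : ℂ)
  have h2 := Complex.norm_mul_sin_arg (⟨x, y⟩ : ℂ)
  exact ⟨Complex.arg ⟨x, y⟩, ‖(⟨x, y⟩ : ℂ)‖, norm_pos_iff.2 hne, h1.symm, h2.symm⟩

theorem hl_fix {U : Mat} (h : IsHyp U) : ∃ t₀ : ℝ, ∀ τ, hl U h τ t₀ = t₀ := by
  have hs := h.sq
  have main : ∀ x y : ℝ, (x ≠ 0 ∨ y ≠ 0) → U 0 0 * x + U 0 1 * y = x →
      U 1 0 * x + U 1 1 * y = y → ∃ t₀ : ℝ, ∀ τ, hl U h τ t₀ = t₀ := by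
    intro x y hxy h1 h2
    obtain ⟨t, r, hr, hx, hy⟩ := exists_dir hxy
    have hr' : r ≠ 0 := hr.ne'
    have h3 : U 0 0 * cos t + U 0 1 * sin t = cos t := by
      apply mul_left_cancel₀ hr'
      rw [hx, hy] at h1
      linarith
    have h4 : U 1 0 * cos t - U 0 0 * sin t = sin t := by
      apply mul_left_cancel₀ hr'
      rw [hx, hy, h.tr] at h2
      linarith
    refine ⟨t, fun τ => can_fix _ _ _ (r := cosh τ + sinh τ) ?_ ?_⟩
    · simp only [hexp_00, hexp_01]
      linear_combination (sinh τ) * h3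
    · simp only [hexp_10, hexp_11]
      linear_combination (sinh τ) * h4
  by_cases h5 : 1 + U 0 0 ≠ 0 ∨ U 1 0 ≠ 0
  · refine main (1 + U 0 0) (U 1 0) h5 ?_ ?_
    · linear_combination hs
    · rw [h.tr]; ring
  · push Not at h5
    refine main (U 0 1) (1 - U 0 0) (Or.inr ?_) ?_ ?_
    · have := h5.1
      intro h6
      linarith
    · ring
    · rw [h.tr]; linear_combination hs

theorem hl_mul_inv {U : Mat} (h : IsHyp U) (τ : ℝ) : adj (hexp U τ) * hexp U τ = 1 :=
  adj_mul (hexp_det h τ)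

theorem hl_add {U : Mat} (h : IsHyp U) (s t : ℝ) :
    hl U h (s + t) = hl U h s * hl U h t := by
  obtain ⟨t₀, ht⟩ := hl_fix h
  have h1 : IsLift (hexp U (s + t)) (hl U h s * hl U h t) := by
    rw [hexp_add h]
    exact (hl_isLift h s).mul (hl_isLift h t)
  refine IsLift.ext (hl_isLift h (s + t)) h1 (hl_mul_inv h _) (t₀ := t₀) ?_
  have h2 : (hl U h s * hl U h t) t₀ = t₀ := by
    show hl U h s (hl U h t t₀) = t₀
    rw [ht, ht]
  rw [h2, ht]
  simp [Real.pi_pos]

theorem hl_zero {U : Mat} (h : IsHyp U) : hl U h 0 = 1 := by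
  have := hl_add h 0 0
  rw [add_zero] at this
  exact left_eq_mul.1 this

theorem hl_neg {U : Mat} (h : IsHyp U) (s : ℝ) : hl U h (-s) = (hl U h s)⁻¹ := by
  rw [eq_inv_iff_mul_eq_one, ← hl_add, neg_add_cancel, hl_zero]

theorem hl_zpow {U : Mat} (h : IsHyp U) (s : ℝ) (n : ℤ) : (hl U h s) ^ n = hl U h (n * s) := by
  induction n using Int.induction_on with
  | zero => simp [hl_zero]
  | succ k ih =>
    rw [zpow_add_one, ih, ← hl_add]
    congr 1
    push_cast; ring
  | pred k ih =>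
    rw [zpow_sub_one, ih, ← hl_neg, ← hl_add]
    congr 1
    push_cast; ring

theorem hl_comm {U : Mat} (h : IsHyp U) (s t : ℝ) : Commute (hl U h s) (hl U h t) := by
  show hl U h s * hl U h t = hl U h t * hl U h s
  rw [← hl_add, ← hl_add, add_comm]

/-- A lift of `exp (τ U)` that moves the points by less than `2 π` belongs to the one-parameter
group. -/
theorem eq_hl {U : Mat} (h : IsHyp U) {τ : ℝ} {f : ℝ ≃o ℝ} (hf : IsLift (hexp U τ) f)
    (hb : ∀ t, |f t - t| < 2 * π) : f = hl U h τ := by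
  obtain ⟨t₀, ht⟩ := hl_fix h
  refine IsLift.ext hf (hl_isLift h τ) (hl_mul_inv h _) (t₀ := t₀) ?_
  rw [ht]
  exact hb t₀

/-! ## Rotations -/

/-- The rotation by the angle `w`. -/
noncomputable def rot (w : ℝ) : Mat := !![cos w, - sin w; sin w, cos w]

@[simp] theorem rot_00 (w : ℝ) : rot w 0 0 = cos w := by simp [rot]
@[simp] theorem rot_01 (w : ℝ) : rot w 0 1 = - sin w := by simp [rot]
@[simp] theorem rot_10 (w : ℝ) : rot w 1 0 = sin w := by simp [rot]
@[simp] theorem rot_11 (w : ℝ) : rot w 1 1 = cos w := by simp [rot]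

/-- The shift by `w`. -/
noncomputable def sh (w : ℝ) : ℝ ≃o ℝ := OrderIso.addRight w

theorem sh_apply (w t : ℝ) : sh w t = t + w := rfl

theorem sh_isLift (w : ℝ) : IsLift (rot w) (sh w) := by
  refine ⟨fun t => ?_, fun t => ⟨1, one_pos, ?_, ?_⟩⟩
  · simp only [sh_apply]; ring
  · simp only [sh_apply, rot_00, rot_01, Real.cos_add]; ring
  · simp only [sh_apply, rot_10, rot_11, Real.sin_add]; ring

theorem sh_add (v w : ℝ) : sh (v + w) = sh v * sh w := by
  ext t
  show t + (v + w) = (t + w) + v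
  ring

theorem sh_zero : sh 0 = 1 := by
  ext t
  show t + 0 = t
  ring

theorem sh_neg (w : ℝ) : sh (-w) = (sh w)⁻¹ := by
  rw [eq_inv_iff_mul_eq_one, ← sh_add, neg_add_cancel, sh_zero]

theorem sh_zpow (s : ℝ) (n : ℤ) : (sh s) ^ n = sh (n * s) := by
  induction n using Int.induction_on with
  | zero => simp [sh_zero]
  | succ k ih =>
    rw [zpow_add_one, ih, ← sh_add]
    congr 1
    push_cast; ring
  | pred k ih =>
    rw [zpow_sub_one, ih, ← sh_neg, ← sh_add]
    congr 1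
    push_cast; ring

theorem sh_comm (v w : ℝ) : Commute (sh v) (sh w) := by
  show sh v * sh w = sh w * sh v
  rw [← sh_add, ← sh_add, add_comm]

theorem rot_det (w : ℝ) : rot w 0 0 * rot w 1 1 - rot w 0 1 * rot w 1 0 = 1 := by
  have := sin_sq_add_cos_sq w
  simp only [rot_00, rot_01, rot_10, rot_11]
  linarith

/-- A lift of a rotation that moves some point by almost the angle of the rotation is the
shift. -/
theorem eq_sh {w : ℝ} {f : ℝ ≃o ℝ} (hf : IsLift (rot w) f) {t₀ : ℝ}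
    (hb : |f t₀ - (t₀ + w)| < 2 * π) : f = sh w :=
  IsLift.ext hf (sh_isLift w) (adj_mul (rot_det w)) (t₀ := t₀) hb

end Pool.Agent.H42.LO
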