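import Pool.Agent.H42.LO.Order

set_option autoImplicit false

/-!
# Lifts of the action of real matrices on the circle of directions to the line

A matrix `M` with determinant one acts on the directions `(cos t, sin t)`.  A lift of `M` is an
order automorphism `f` of the line that commutes with the shift by `π` such that `M` takes the
direction `t` to the direction `f t`.
-/

namespace Pool.Agent.H42.LO

open Real

/-- Two by two real matrices. -/
abbrev Mat : Type := Matrix (Fin 2) (Fin 2) ℝ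

/-- `f` is a lift of `M`. -/
structure IsLift (M : Mat) (f : ℝ ≃o ℝ) : Prop where
  per : ∀ t, f (t + π) = f t + π
  dir : ∀ t, ∃ ρ : ℝ, 0 < ρ ∧ M 0 0 * cos t + M 0 1 * sin t = ρ * cos (f t) ∧
    M 1 0 * cos t + M 1 1 * sin t = ρ * sin (f t)

theorem IsLift.one : IsLift 1 1 :=
  ⟨fun t => rfl, fun t => ⟨1, one_pos, by simp, by simp⟩⟩

theorem IsLift.mul {M N : Mat} {f g : ℝ ≃o ℝ} (hf : IsLift M f) (hg : IsLift N g) :
    IsLift (M * N) (f * g) := by
  refine ⟨fun t => ?_, fun t => ?_⟩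
  · show f (g (t + π)) = f (g t) + π
    rw [hg.per, hf.per]
  · obtain ⟨r, hr, h1, h2⟩ := hg.dir t
    obtain ⟨s, hs, h3, h4⟩ := hf.dir (g t)
    refine ⟨r * s, mul_pos hr hs, ?_, ?_⟩
    · show (M * N) 0 0 * cos t + (M * N) 0 1 * sin t = r * s * cos (f (g t))
      rw [Matrix.mul_apply, Matrix.mul_apply, Fin.sum_univ_two, Fin.sum_univ_two]
      linear_combination M 0 0 * h1 + M 0 1 * h2 + r * h3
    · show (M * N) 1 0 * cos t + (M * N) 1 1 * sin t = r * s * sin (f (g t))
      rw [Matrix.mul_apply, Matrix.mul_apply, Fin.sum_univ_two, Fin.sum_univ_two]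
      linear_combination M 1 0 * h1 + M 1 1 * h2 + r * h4

theorem IsLift.inv {M N : Mat} {f : ℝ ≃o ℝ} (hf : IsLift M f) (h : N * M = 1) :
    IsLift N f⁻¹ := by
  have e00 : N 0 0 * M 0 0 + N 0 1 * M 1 0 = 1 := by
    have := congrFun (congrFun h 0) 0
    simpa [Matrix.mul_apply, Fin.sum_univ_two] using this
  have e01 : N 0 0 * M 0 1 + N 0 1 * M 1 1 = 0 := by
    have := congrFun (congrFun h 0) 1
    simpa [Matrix.mul_apply, Fin.sum_univ_two] using this
  have e10 : N 1 0 * M 0 0 + N 1 1 * M 1 0 = 0 := by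
    have := congrFun (congrFun h 1) 0
    simpa [Matrix.mul_apply, Fin.sum_univ_two] using this
  have e11 : N 1 0 * M 0 1 + N 1 1 * M 1 1 = 1 := by
    have := congrFun (congrFun h 1) 1
    simpa [Matrix.mul_apply, Fin.sum_univ_two] using this
  have key : ∀ t, f (f⁻¹ t) = t := fun t => f.apply_symm_apply t
  refine ⟨fun t => ?_, fun t => ?_⟩
  · apply f.injective
    rw [key, hf.per, key]
  · obtain ⟨r, hr, h1, h2⟩ := hf.dir (f⁻¹ t)
    rw [key] at h1 h2
    set s := f⁻¹ t with hs
    have hr' : r ≠ 0 := hr.ne'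
    refine ⟨r⁻¹, inv_pos.2 hr, ?_, ?_⟩
    · have : r * (N 0 0 * cos t + N 0 1 * sin t) = cos s := by
        linear_combination (- N 0 0) * h1 - N 0 1 * h2 + cos s * e00 + sin s * e01
      rw [← this, ← mul_assoc, inv_mul_cancel₀ hr', one_mul]
    · have : r * (N 1 0 * cos t + N 1 1 * sin t) = sin s := by
        linear_combination (- N 1 0) * h1 - N 1 1 * h2 + cos s * e10 + sin s * e11
      rw [← this, ← mul_assoc, inv_mul_cancel₀ hr', one_mul]

theorem int_of_cos_sin {a b r : ℝ} (hr : 0 < r) (h1 : cos a = r * cos b)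
    (h2 : sin a = r * sin b) : ∃ n : ℤ, b = a + 2 * π * n := by
  have hr1 : r = 1 := by
    have h3 := sin_sq_add_cos_sq a
    have h4 := sin_sq_add_cos_sq b
    rw [h1, h2] at h3
    have h5 : r ^ 2 = 1 := by nlinarith
    nlinarith
  rw [hr1, one_mul] at h1 h2
  have h3 : (b : Real.Angle) = a := Real.Angle.cos_sin_inj h1.symm h2.symm
  obtain ⟨k, hk⟩ := Real.Angle.angle_eq_iff_two_pi_dvd_sub.1 h3
  exact ⟨k, by linarith⟩

theorem per_int {f : ℝ → ℝ} (h : ∀ t, f (t + π) = f t + π) (n : ℤ) (t : ℝ) :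
    f (t + n * π) = f t + n * π := by
  induction n using Int.induction_on generalizing t with
  | zero => simp
  | succ k ih =>
    have : t + ((k : ℤ) + 1 : ℤ) * π = (t + (k : ℤ) * π) + π := by push_cast; ring
    rw [this, h, ih]; push_cast; ring
  | pred k ih =>
    have h1 := h (t + (-(k : ℤ) - 1 : ℤ) * π)
    have : (t + (-(k : ℤ) - 1 : ℤ) * π) + π = t + (-(k : ℤ) : ℤ) * π := by push_cast; ring
    rw [this, ih] at h1
    push_cast at h1 ⊢
    linarith

/-- A map that commutes with the shift by `π` and has a fixed point moves all points by less than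
`π`. -/
theorem abs_sub_lt_of_fix {f : ℝ ≃o ℝ} (h : ∀ t, f (t + π) = f t + π) {s : ℝ} (hs : f s = s)
    (t : ℝ) : |f t - t| < π := by
  obtain ⟨n, hn, -⟩ := existsUnique_sub_zsmul_mem_Ico Real.pi_pos t s
  rw [Set.mem_Ico] at hn
  set u := t - n • π with hu
  have ht : t = u + n * π := by rw [hu]; simp
  have h1 : f t = f u + n * π := by rw [ht]; exact per_int h n u
  have h2 : s ≤ f u := by
    rw [← hs]; exact f.monotone hn.1
  have h3 : f u < s + π := by
    calc f u < f (s + π) := f.strictMono hn.2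
      _ = s + π := by rw [h s, hs]
  rw [h1, ht, abs_lt]
  constructor <;> linarith [hn.1, hn.2]

theorem IsLift.eq_one {f : ℝ ≃o ℝ} (hf : IsLift 1 f) {t₀ : ℝ} (h : |f t₀ - t₀| < 2 * π) :
    f = 1 := by
  have key : ∀ t, ∃ n : ℤ, f t = t + 2 * π * n := by
    intro t
    obtain ⟨r, hr, h1, h2⟩ := hf.dir t
    simp only [Matrix.one_apply_eq, ne_eq, zero_ne_one, not_false_eq_true,
      Matrix.one_apply_ne, one_ne_zero, one_mul, zero_mul, add_zero, zero_add] at h1 h2
    exact int_of_cos_sin hr h1 h2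
  have small : ∀ t, |f t - t| < 2 * π → f t = t := by
    intro t ht
    obtain ⟨n, hn⟩ := key t
    have h1 : |2 * π * (n : ℝ)| < 2 * π := by
      have : f t - t = 2 * π * n := by linarith
      rwa [this] at ht
    rw [abs_mul, abs_of_pos Real.two_pi_pos] at h1
    have h2 : |(n : ℝ)| < 1 := by
      by_contra hcon
      push Not at hcon
      nlinarith [Real.two_pi_pos]
    have h3 : |n| < 1 := by exact_mod_cast h2
    have h4 : n = 0 := Int.abs_lt_one_iff.1 h3
    rw [hn, h4]; simp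
  have h0 := small t₀ h
  ext t
  exact small t ((abs_sub_lt_of_fix hf.per h0 t).trans (by linarith [Real.pi_pos]))

/-- Two lifts of the same matrix that agree at a point are equal. -/
theorem IsLift.ext {M N : Mat} {f g : ℝ ≃o ℝ} (hf : IsLift M f) (hg : IsLift M g)
    (hM : N * M = 1) {t₀ : ℝ} (h : |f t₀ - g t₀| < 2 * π) : f = g := by
  have h1 : IsLift 1 (g⁻¹ * f) := by
    have := (hg.inv hM).mul hf
    rwa [hM] at this
  have hg2 : ∀ t, g (t + 2 * π) = g t + 2 * π := by
    intro t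
    have := per_int hg.per 2 t
    push_cast at this
    linarith
  have hg3 : g (g⁻¹ (f t₀)) = f t₀ := g.apply_symm_apply _
  have h2 : |(g⁻¹ * f) t₀ - t₀| < 2 * π := by
    show |g⁻¹ (f t₀) - t₀| < 2 * π
    rw [abs_lt] at h ⊢
    constructor
    · have : t₀ < g⁻¹ (f t₀) + 2 * π := by
        rw [← g.lt_iff_lt, hg2, hg3]; linarith [h.1]
      linarith
    · have : g⁻¹ (f t₀) < t₀ + 2 * π := by
        rw [← g.lt_iff_lt, hg2, hg3]; linarith [h.2]
      linarith
  have h3 := h1.eq_one h2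
  calc f = g * (g⁻¹ * f) := by rw [mul_inv_cancel_left]
    _ = g := by rw [h3, mul_one]

/-! ## The canonical lift of a matrix without negative eigenvalues -/

/-- The quotient of `M e` and `e` for the direction `e = (cos t, sin t)`, as a complex number. -/
noncomputable def quo (M : Mat) (t : ℝ) : ℂ :=
  ⟨M 0 0 * cos t ^ 2 + (M 0 1 + M 1 0) * (cos t * sin t) + M 1 1 * sin t ^ 2,
    M 1 0 * cos t ^ 2 + (M 1 1 - M 0 0) * (cos t * sin t) - M 0 1 * sin t ^ 2⟩

theorem quo_fst (M : Mat) (t : ℝ) :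
    M 0 0 * cos t + M 0 1 * sin t = (quo M t).re * cos t - (quo M t).im * sin t := by
  have h := sin_sq_add_cos_sq t
  simp only [quo]
  linear_combination (- (M 0 0 * cos t + M 0 1 * sin t)) * h

theorem quo_snd (M : Mat) (t : ℝ) :
    M 1 0 * cos t + M 1 1 * sin t = (quo M t).re * sin t + (quo M t).im * cos t := by
  have h := sin_sq_add_cos_sq t
  simp only [quo]
  linear_combination (- (M 1 0 * cos t + M 1 1 * sin t)) * h

theorem quo_mem {M : Mat} (hd : M 0 0 * M 1 1 - M 0 1 * M 1 0 = 1)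
    (ht : -2 < M 0 0 + M 1 1) (t : ℝ) : quo M t ∈ Complex.slitPlane := by
  rw [Complex.mem_slitPlane_iff]
  by_contra hcon
  push Not at hcon
  obtain ⟨h1, h2⟩ := hcon
  have e1 := quo_fst M t
  have e2 := quo_snd M t
  rw [h2] at e1 e2
  set r := (quo M t).re with hr
  have h := sin_sq_add_cos_sq t
  have f1 : (M 0 0 - r) * cos t + M 0 1 * sin t = 0 := by linarith
  have f2 : M 1 0 * cos t + (M 1 1 - r) * sin t = 0 := by linarith
  have f3 : ((M 0 0 - r) * (M 1 1 - r) - M 0 1 * M 1 0) * cos t = 0 := by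
    linear_combination (M 1 1 - r) * f1 - M 0 1 * f2
  have f4 : ((M 0 0 - r) * (M 1 1 - r) - M 0 1 * M 1 0) * sin t = 0 := by
    linear_combination (M 0 0 - r) * f2 - M 1 0 * f1
  have f5 : (M 0 0 - r) * (M 1 1 - r) - M 0 1 * M 1 0 = 0 := by
    linear_combination (sin t) * f4 + (cos t) * f3
      - ((M 0 0 - r) * (M 1 1 - r) - M 0 1 * M 1 0) * h
  have f6 : r ^ 2 - (M 0 0 + M 1 1) * r + 1 = 0 := by linear_combination f5 - hd
  have f7 : 0 ≤ (M 0 0 + M 1 1 + 2) * (-r) :=
    mul_nonneg (by linarith) (by linarith)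
  have f8 : (r + 1) ^ 2 = 0 := by nlinarith [sq_nonneg (r + 1)]
  have f9 : r = -1 := by
    have := pow_eq_zero_iff (two_ne_zero) |>.1 f8
    linarith
  rw [f9] at f6
  linarith

/-- The canonical lift, as a function. -/
noncomputable def canFun (M : Mat) (t : ℝ) : ℝ := t + Complex.arg (quo M t)

theorem canFun_dir {M : Mat} (hd : M 0 0 * M 1 1 - M 0 1 * M 1 0 = 1)
    (ht : -2 < M 0 0 + M 1 1) (t : ℝ) : ∃ ρ : ℝ, 0 < ρ ∧
    M 0 0 * cos t + M 0 1 * sin t = ρ * cos (canFun M t) ∧
    M 1 0 * cos t + M 1 1 * sin t = ρ * sin (canFun M t) := by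
  have hw := quo_mem hd ht t
  have hne : quo M t ≠ 0 := Complex.slitPlane_ne_zero hw
  have h1 : ‖quo M t‖ * cos (Complex.arg (quo M t)) = (quo M t).re :=
    Complex.norm_mul_cos_arg _
  have h2 : ‖quo M t‖ * sin (Complex.arg (quo M t)) = (quo M t).im :=
    Complex.norm_mul_sin_arg _
  refine ⟨‖quo M t‖, norm_pos_iff.2 hne, ?_, ?_⟩
  · rw [quo_fst, ← h1, ← h2, canFun, Real.cos_add]; ring
  · rw [quo_snd, ← h1, ← h2, canFun, Real.sin_add]; ring

theorem canFun_per (M : Mat) (t : ℝ) : canFun M (t + π) = canFun M t + π := by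
  have : quo M (t + π) = quo M t := by
    simp only [quo, Real.cos_add_pi, Real.sin_add_pi]
    congr 1 <;> ring
  rw [canFun, canFun, this]; ring

theorem canFun_sub {M : Mat} (hd : M 0 0 * M 1 1 - M 0 1 * M 1 0 = 1)
    (ht : -2 < M 0 0 + M 1 1) (t : ℝ) : |canFun M t - t| < π := by
  have hw := quo_mem hd ht t
  rw [canFun, add_sub_cancel_left]
  refine lt_of_le_of_ne (Complex.abs_arg_le_pi _) ?_
  intro h
  have h1 := (Complex.mem_slitPlane_iff_arg.1 hw).1
  have h2 := Complex.neg_pi_lt_arg (quo M t)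
  rcases abs_eq (Real.pi_pos.le) |>.1 h with h3 | h3
  · exact h1 h3
  · linarith

theorem canFun_continuous {M : Mat} (hd : M 0 0 * M 1 1 - M 0 1 * M 1 0 = 1)
    (ht : -2 < M 0 0 + M 1 1) : Continuous (canFun M) := by
  rw [continuous_iff_continuousAt]
  intro t
  have hq : Continuous (quo M) := by
    have : quo M = fun t => ((M 0 0 * cos t ^ 2 + (M 0 1 + M 1 0) * (cos t * sin t)
        + M 1 1 * sin t ^ 2 : ℝ) : ℂ) + ((M 1 0 * cos t ^ 2 + (M 1 1 - M 0 0) * (cos t * sin t)
        - M 0 1 * sin t ^ 2 : ℝ) : ℂ) * Complex.I := by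
      funext t
      exact (Complex.re_add_im (quo M t)).symm
    rw [this]
    fun_prop
  exact continuousAt_id.add
    ((Complex.continuousAt_arg (quo_mem hd ht t)).comp (f := quo M) hq.continuousAt)

/-- The adjugate matrix. -/
def adj (M : Mat) : Mat := !![M 1 1, - M 0 1; - M 1 0, M 0 0]

theorem adj_mul {M : Mat} (hd : M 0 0 * M 1 1 - M 0 1 * M 1 0 = 1) : adj M * M = 1 := by
  ext i j
  fin_cases i <;> fin_cases j <;>
    simp [adj, Matrix.mul_apply, Fin.sum_univ_two] <;> linarith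

theorem mul_adj {M : Mat} (hd : M 0 0 * M 1 1 - M 0 1 * M 1 0 = 1) : M * adj M = 1 := by
  ext i j
  fin_cases i <;> fin_cases j <;>
    simp [adj, Matrix.mul_apply, Fin.sum_univ_two] <;> linarith

theorem adj_adj (M : Mat) : adj (adj M) = M := by
  ext i j
  fin_cases i <;> fin_cases j <;> simp [adj]

theorem adj_det {M : Mat} (hd : M 0 0 * M 1 1 - M 0 1 * M 1 0 = 1) :
    adj M 0 0 * adj M 1 1 - adj M 0 1 * adj M 1 0 = 1 := by
  simp [adj]; linarith

theorem adj_tr {M : Mat} (ht : -2 < M 0 0 + M 1 1) : -2 < adj M 0 0 + adj M 1 1 := by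
  simp [adj]; linarith

theorem canFun_adj {M : Mat} (hd : M 0 0 * M 1 1 - M 0 1 * M 1 0 = 1)
    (ht : -2 < M 0 0 + M 1 1) (t : ℝ) : canFun (adj M) (canFun M t) = t := by
  obtain ⟨r, hr, h1, h2⟩ := canFun_dir hd ht t
  obtain ⟨s, hs, h3, h4⟩ := canFun_dir (adj_det hd) (adj_tr ht) (canFun M t)
  have b1 := canFun_sub hd ht t
  have b2 := canFun_sub (adj_det hd) (adj_tr ht) (canFun M t)
  set u := canFun M t
  set v := canFun (adj M) u
  simp only [adj, Matrix.of_apply, Matrix.cons_val', Matrix.cons_val_zero,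
    Matrix.cons_val_one, Matrix.cons_val_fin_one] at h3 h4
  have k1 : cos t = (r * s) * cos v := by
    have : (r * s) * cos v = r * (s * cos v) := by ring
    rw [this, ← h3]
    linear_combination (M 1 1) * h1 - M 0 1 * h2 - (cos t) * hd
  have k2 : sin t = (r * s) * sin v := by
    have : (r * s) * sin v = r * (s * sin v) := by ring
    rw [this, ← h4]
    linear_combination (- M 1 0) * h1 + M 0 0 * h2 - (sin t) * hd
  obtain ⟨n, hn⟩ := int_of_cos_sin (mul_pos hr hs) k1 k2
  rw [abs_lt] at b1 b2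
  have h5 : |2 * π * (n : ℝ)| < 2 * π := by
    rw [abs_lt]; constructor <;> linarith [b1.1, b1.2, b2.1, b2.2]
  rw [abs_mul, abs_of_pos Real.two_pi_pos] at h5
  have h6 : |(n : ℝ)| < 1 := by
    by_contra hcon
    push Not at hcon
    nlinarith [Real.two_pi_pos]
  have h7 : |n| < 1 := by exact_mod_cast h6
  have h8 : n = 0 := Int.abs_lt_one_iff.1 h7
  rw [hn, h8]; simp

theorem canFun_strictMono {M : Mat} (hd : M 0 0 * M 1 1 - M 0 1 * M 1 0 = 1)
    (ht : -2 < M 0 0 + M 1 1) : StrictMono (canFun M) := by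
  have hinj : Function.Injective (canFun M) := by
    intro s t hst
    rw [← canFun_adj hd ht s, ← canFun_adj hd ht t, hst]
  rcases (canFun_continuous hd ht).strictMono_of_inj hinj with h | h
  · exact h
  · exfalso
    have h1 := h (show (0 : ℝ) < 0 + π by linarith [Real.pi_pos])
    rw [canFun_per] at h1
    linarith [Real.pi_pos]

/-- The canonical lift of a matrix with determinant one and trace larger than `-2`. -/
noncomputable def can (M : Mat) (hd : M 0 0 * M 1 1 - M 0 1 * M 1 0 = 1)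
    (ht : -2 < M 0 0 + M 1 1) : ℝ ≃o ℝ :=
  Equiv.toOrderIso
    { toFun := canFun M
      invFun := canFun (adj M)
      left_inv := canFun_adj hd ht
      right_inv := fun t => by
        have := canFun_adj (adj_det hd) (adj_tr ht) t
        rwa [adj_adj] at this }
    (canFun_strictMono hd ht).monotone
    (canFun_strictMono (adj_det hd) (adj_tr ht)).monotone

theorem can_isLift (M : Mat) (hd : M 0 0 * M 1 1 - M 0 1 * M 1 0 = 1)
    (ht : -2 < M 0 0 + M 1 1) : IsLift M (can M hd ht) :=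
  ⟨fun t => canFun_per M t, fun t => canFun_dir hd ht t⟩

theorem can_sub (M : Mat) (hd : M 0 0 * M 1 1 - M 0 1 * M 1 0 = 1)
    (ht : -2 < M 0 0 + M 1 1) (t : ℝ) : |can M hd ht t - t| < π :=
  canFun_sub hd ht t

/-- The canonical lift fixes the directions of the eigenvectors. -/
theorem can_fix (M : Mat) (hd : M 0 0 * M 1 1 - M 0 1 * M 1 0 = 1)
    (ht : -2 < M 0 0 + M 1 1) {t r : ℝ} (h1 : M 0 0 * cos t + M 0 1 * sin t = r * cos t)
    (h2 : M 1 0 * cos t + M 1 1 * sin t = r * sin t) : can M hd ht t = t := by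
  have h := sin_sq_add_cos_sq t
  have him : (quo M t).im = 0 := by
    simp only [quo]
    linear_combination (cos t) * h2 - sin t * h1
  have hw := quo_mem hd ht t
  rw [Complex.mem_slitPlane_iff] at hw
  have hre : 0 < (quo M t).re := by
    rcases hw with hw | hw
    · exact hw
    · exact absurd him hw
  have harg : Complex.arg (quo M t) = 0 := by
    rw [Complex.arg_eq_zero_iff]
    exact ⟨hre.le, him⟩
  show canFun M t = t
  rw [canFun, harg, add_zero]

end Pool.Agent.H42.LO
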