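import Mathlib

set_option autoImplicit false

/-!
# The group of order automorphisms of the line is left-orderable
-/

namespace Pool.Agent.H42.LO

/-- A nontrivial group is left-orderable if it carries a strict total order that is invariant
under left multiplication. -/
def LeftOrderable (G : Type*) [Group G] : Prop :=
  Nontrivial G ∧ ∃ lt : G → G → Prop, IsStrictTotalOrder G lt ∧
    ∀ a b c : G, lt a b ↔ lt (c * a) (c * b)

/-- The order on order automorphisms: compare at the first point, with respect to a well-order of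
the line, where the two automorphisms differ. -/
def olt (f g : ℝ ≃o ℝ) : Prop :=
  ∃ t : ℝ, f t < g t ∧ ∀ s : ℝ, WellOrderingRel s t → f s = g s

theorem olt_trans {f g h : ℝ ≃o ℝ} (h1 : olt f g) (h2 : olt g h) : olt f h := by
  obtain ⟨t, ht, ht'⟩ := h1
  obtain ⟨u, hu, hu'⟩ := h2
  rcases trichotomous_of (WellOrderingRel (α := ℝ)) t u with h | h | h
  · refine ⟨t, by rw [← hu' t h]; exact ht, fun s hs => ?_⟩
    rw [ht' s hs]
    exact hu' s (_root_.trans hs h)
  · subst h
    exact ⟨t, ht.trans hu, fun s hs => (ht' s hs).trans (hu' s hs)⟩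
  · refine ⟨u, by rw [ht' u h]; exact hu, fun s hs => ?_⟩
    rw [← hu' s hs]
    exact ht' s (_root_.trans hs h)

theorem olt_total {f g : ℝ ≃o ℝ} (h : f ≠ g) : olt f g ∨ olt g f := by
  classical
  have hne : {t : ℝ | f t ≠ g t}.Nonempty := by
    by_contra hcon
    apply h
    ext t
    by_contra ht
    exact hcon ⟨t, ht⟩
  have wf : WellFounded (WellOrderingRel (α := ℝ)) := IsWellFounded.wf
  have h1 := wf.min_mem _ hne
  have h2 : ∀ s, WellOrderingRel s (wf.min _ hne) → f s = g s := by
    intro s hs
    by_contra hcon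
    exact wf.not_lt_min _ (x := s) hcon hs
  rcases lt_or_gt_of_ne h1 with h3 | h3
  · exact Or.inl ⟨_, h3, h2⟩
  · exact Or.inr ⟨_, h3, fun s hs => (h2 s hs).symm⟩

theorem orderIso_leftOrderable : LeftOrderable (ℝ ≃o ℝ) := by
  refine ⟨⟨⟨1, OrderIso.addRight 1, ?_⟩⟩, olt, ?_, ?_⟩
  · intro h
    have := congrArg (fun f : ℝ ≃o ℝ => f 0) h
    simp at this
  · exact {
      trichotomous := fun a b hab hba => by
        by_contra hne
        rcases olt_total hne with h | h
        · exact hab h
        · exact hba h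
      irrefl := fun a ⟨t, ht, _⟩ => lt_irrefl _ ht
      trans := fun a b c => olt_trans }
  · intro a b c
    constructor
    · rintro ⟨t, ht, ht'⟩
      refine ⟨t, ?_, fun s hs => ?_⟩
      · show c (a t) < c (b t)
        exact c.lt_iff_lt.2 ht
      · show c (a s) = c (b s)
        rw [ht' s hs]
    · rintro ⟨t, ht, ht'⟩
      refine ⟨t, ?_, fun s hs => ?_⟩
      · exact c.lt_iff_lt.1 ht
      · exact c.injective (ht' s hs)

end Pool.Agent.H42.LO
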